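import Pool.Agent.Helper1.CP.Stm

/-! Composition of trapezoidal pairs: polygons of `F(A, B)`, brackets. -/

set_option autoImplicit false

namespace Pool.Agent.Helper1.CP

open MvPolynomial

theorem ex0 (p q : ℕ) : ex p q 0 = p := by simp [ex]
theorem ex1 (p q : ℕ) : ex p q 1 = q := by simp [ex]

theorem ex_ext {d e : Fin 2 →₀ ℕ} (h0 : d 0 = e 0) (h1 : d 1 = e 1) : d = e := by
  ext i
  fin_cases i
  · exact h0
  · exact h1

theorem ex_add (p q p' q' : ℕ) : ex p q + ex p' q' = ex (p + p') (q + q') := by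
  apply ex_ext
  · rw [Finsupp.add_apply, ex0, ex0, ex0]
  · rw [Finsupp.add_apply, ex1, ex1, ex1]

/-- `(p, q)` is the only point of the support where `α p + β q` is maximal (or it has coefficient
zero and is larger than the others); `c` is its coefficient -/
def Top (α β : ℤ) (p q : ℕ) (c : ℂ) (f : P) : Prop :=
  coeff (ex p q) f = c ∧ ∀ d ∈ f.support, α * d 0 + β * d 1 ≤ α * p + β * q ∧
    (α * d 0 + β * d 1 = α * p + β * q → d = ex p q)

theorem Top.mul {α β : ℤ} {p q p' q' : ℕ} {c c' : ℂ} {f g : P} (hf : Top α β p q c f)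
    (hg : Top α β p' q' c' g) : Top α β (p + p') (q + q') (c * c') (f * g) := by
  classical
  refine ⟨?_, ?_⟩
  · rw [coeff_mul, Finset.sum_eq_single (ex p q, ex p' q')]
    · rw [hf.1, hg.1]
    · rintro ⟨u, v⟩ huv hne
      rw [Finset.HasAntidiagonal.mem_antidiagonal] at huv
      by_contra h
      have hu : u ∈ f.support := mem_support_iff.2 (left_ne_zero_of_mul h)
      have hv : v ∈ g.support := mem_support_iff.2 (right_ne_zero_of_mul h)
      have huv' : u + v = ex (p + p') (q + q') := huv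
      have h0 : u 0 + v 0 = p + p' := by
        have := congrArg (fun t : Fin 2 →₀ ℕ => t 0) huv'
        simpa [ex0] using this
      have h1 : u 1 + v 1 = q + q' := by
        have := congrArg (fun t : Fin 2 →₀ ℕ => t 1) huv'
        simpa [ex1] using this
      obtain ⟨a1, a2⟩ := hf.2 u hu
      obtain ⟨b1, b2⟩ := hg.2 v hv
      have e : (α * u 0 + β * u 1) + (α * v 0 + β * v 1) =
          (α * p + β * q) + (α * p' + β * q') := by
        have h0' : (u 0 : ℤ) + v 0 = p + p' := by exact_mod_cast h0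
        have h1' : (u 1 : ℤ) + v 1 = q + q' := by exact_mod_cast h1
        linear_combination α * h0' + β * h1'
      apply hne
      rw [a2 (by linarith), b2 (by linarith)]
    · intro h
      exact absurd (Finset.HasAntidiagonal.mem_antidiagonal.2 (ex_add p q p' q')) h
  · intro d hd
    obtain ⟨u, hu, v, hv, rfl⟩ := Finset.mem_add.1 (support_mul f g hd)
    obtain ⟨a1, a2⟩ := hf.2 u hu
    obtain ⟨b1, b2⟩ := hg.2 v hv
    rw [Finsupp.add_apply, Finsupp.add_apply]
    push_cast
    refine ⟨by linarith, fun h => ?_⟩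
    rw [a2 (by linarith), b2 (by linarith), ex_add]

theorem Top.one (α β : ℤ) : Top α β 0 0 1 (1 : P) := by
  have h : ex 0 0 = 0 := by apply ex_ext <;> simp [ex]
  refine ⟨by rw [h]; simp, fun d hd => ?_⟩
  have hd0 : d = 0 := by
    by_contra h0
    rw [mem_support_iff, coeff_one, if_neg (fun e => h0 e.symm)] at hd
    exact hd rfl
  subst hd0
  simp [h]

theorem Top.pow {α β : ℤ} {p q : ℕ} {c : ℂ} {f : P} (hf : Top α β p q c f) (k : ℕ) :
    Top α β (k * p) (k * q) (c ^ k) (f ^ k) := by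
  induction k with
  | zero => simpa using Top.one α β
  | succ k ih =>
    have := ih.mul hf
    rw [← pow_succ, ← pow_succ] at this
    have e1 : k * p + p = (k + 1) * p := by ring
    have e2 : k * q + q = (k + 1) * q := by ring
    rwa [e1, e2] at this

theorem Bd.mul {α β B B' : ℤ} {f g : P} (hf : Bd α β B f) (hg : Bd α β B' g) :
    Bd α β (B + B') (f * g) := by
  classical
  intro d hd
  obtain ⟨u, hu, v, hv, rfl⟩ := Finset.mem_add.1 (support_mul f g hd)
  have a1 := hf u hu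
  have b1 := hg v hv
  rw [Finsupp.add_apply, Finsupp.add_apply]
  push_cast
  linarith

theorem Bd.one (α β : ℤ) : Bd α β 0 (1 : P) := by
  intro d hd
  have hd0 : d = 0 := by
    by_contra h0
    rw [mem_support_iff, coeff_one, if_neg (fun e => h0 e.symm)] at hd
    exact hd rfl
  subst hd0
  simp

theorem Bd.pow {α β B : ℤ} {f : P} (hf : Bd α β B f) (k : ℕ) : Bd α β (k * B) (f ^ k) := by
  induction k with
  | zero => simpa using Bd.one α β
  | succ k ih =>
    have := ih.mul hf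
    rw [← pow_succ] at this
    have e1 : (k : ℤ) * B + B = ((k + 1 : ℕ) : ℤ) * B := by push_cast; ring
    rwa [e1] at this

theorem comp_sum (F A B : P) : aeval ![A, B] F =
    ∑ d ∈ F.support, C (coeff d F) * (A ^ d 0 * B ^ d 1) := by
  rw [aeval_def, eval₂_eq']
  refine Finset.sum_congr rfl fun d _ => ?_
  rw [Fin.prod_univ_two]
  rfl

theorem mem_comp {F A B : P} {d : Fin 2 →₀ ℕ} (h : d ∈ (aeval ![A, B] F : P).support) :
    ∃ e ∈ F.support, d ∈ (A ^ e 0 * B ^ e 1).support := by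
  rw [comp_sum, mem_support_iff, coeff_sum] at h
  obtain ⟨e, he, hne⟩ := Finset.exists_ne_zero_of_sum_ne_zero h
  refine ⟨e, he, ?_⟩
  rw [coeff_C_mul] at hne
  exact mem_support_iff.2 (right_ne_zero_of_mul hne)

/-- the weight `a' p + b' q` on the trapezoid -/
theorem weight_le {a' b' m n : ℕ} (hab : a' ≤ b') {F : P} (h1 : Bd 0 1 n F)
    (h2 : Bd 1 1 (m + n) F) {d : Fin 2 →₀ ℕ} (hd : d ∈ F.support) :
    (a' : ℤ) * d 0 + b' * d 1 ≤ a' * m + b' * n := by
  have e1 := h1 d hd
  have e2 := h2 d hd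
  have hab' : (0 : ℤ) ≤ b' - a' := by
    have : (a' : ℤ) ≤ b' := by exact_mod_cast hab
    linarith
  have ha0 : (0 : ℤ) ≤ a' := by positivity
  nlinarith

theorem weight_eq {a' b' m n : ℕ} (ha : 0 < a') (hab : a' < b') {F : P} (h1 : Bd 0 1 n F)
    (h2 : Bd 1 1 (m + n) F) {d : Fin 2 →₀ ℕ} (hd : d ∈ F.support)
    (h : (a' : ℤ) * d 0 + b' * d 1 = a' * m + b' * n) : d = ex m n := by
  have e1 := h1 d hd
  have e2 := h2 d hd
  have hab' : (0 : ℤ) < b' - a' := by
    have : (a' : ℤ) < b' := by exact_mod_cast hab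
    linarith
  have ha0 : (0 : ℤ) < a' := by exact_mod_cast ha
  have k1 : (d 1 : ℤ) = n := by
    by_contra hne
    have : (d 1 : ℤ) < n := lt_of_le_of_ne (by linarith) hne
    nlinarith
  have k0 : (d 0 : ℤ) = m := by
    rw [k1] at h
    have : (a' : ℤ) * d 0 = a' * m := by linarith
    exact mul_left_cancel₀ ha0.ne' this
  apply ex_ext
  · rw [ex0]; exact_mod_cast k0
  · rw [ex1]; exact_mod_cast k1

theorem bd_comp {α β V V2 : ℤ} {A B F : P} (hA : Bd α β V A) (hB : Bd α β V2 B) (hV : 0 ≤ V)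
    {a' b' m n : ℕ} (ha : 0 < a') (hab : a' ≤ b') (hV2 : (a' : ℤ) * V2 = b' * V)
    (h1 : Bd 0 1 n F) (h2 : Bd 1 1 (m + n) F) : Bd α β (m * V + n * V2) (aeval ![A, B] F) := by
  intro d hd
  obtain ⟨e, he, hde⟩ := mem_comp hd
  have k1 := ((hA.pow (e 0)).mul (hB.pow (e 1))) d hde
  have k2 := weight_le hab h1 h2 he
  have ha0 : (0 : ℤ) < a' := by exact_mod_cast ha
  refine k1.trans ?_
  apply le_of_mul_le_mul_left _ ha0
  have e3 : (a' : ℤ) * (e 0 * V + e 1 * V2) = (a' * e 0 + b' * e 1) * V := by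
    linear_combination (e 1 : ℤ) * hV2
  have e4 : (a' : ℤ) * (m * V + n * V2) = (a' * m + b' * n) * V := by
    linear_combination (n : ℤ) * hV2
  rw [e3, e4]
  exact mul_le_mul_of_nonneg_right k2 hV

theorem top_comp {α β : ℤ} {p q p2 q2 : ℕ} {c1 c2 : ℂ} {A B F : P} (hA : Top α β p q c1 A)
    (hB : Top α β p2 q2 c2 B) (hV : 0 < α * p + β * q) {a' b' m n : ℕ} (ha : 0 < a')
    (hab : a' < b') (hp : a' * p2 = b' * p) (hq : a' * q2 = b' * q)
    (h1 : Bd 0 1 n F) (h2 : Bd 1 1 (m + n) F) :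
    Top α β (m * p + n * p2) (m * q + n * q2) (coeff (ex m n) F * (c1 ^ m * c2 ^ n))
      (aeval ![A, B] F) := by
  have ha0 : (0 : ℤ) < a' := by exact_mod_cast ha
  have hpz : (a' : ℤ) * p2 = b' * p := by exact_mod_cast hp
  have hqz : (a' : ℤ) * q2 = b' * q := by exact_mod_cast hq
  have T : ∀ e : Fin 2 →₀ ℕ, Top α β (e 0 * p + e 1 * p2) (e 0 * q + e 1 * q2)
      (c1 ^ e 0 * c2 ^ e 1) (A ^ e 0 * B ^ e 1) := fun e => (hA.pow (e 0)).mul (hB.pow (e 1))
  have val : ∀ x y : ℤ, (a' : ℤ) * (α * (x * p + y * p2) + β * (x * q + y * q2)) =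
      (a' * x + b' * y) * (α * p + β * q) := by
    intro x y
    linear_combination (α * y) * hpz + (β * y) * hqz
  have key : ∀ e ∈ F.support, ∀ d ∈ (A ^ e 0 * B ^ e 1).support,
      α * d 0 + β * d 1 ≤ α * ((m * p + n * p2 : ℕ) : ℤ) + β * ((m * q + n * q2 : ℕ) : ℤ) ∧
      (α * d 0 + β * d 1 = α * ((m * p + n * p2 : ℕ) : ℤ) + β * ((m * q + n * q2 : ℕ) : ℤ) →
        e = ex m n ∧ d = ex (m * p + n * p2) (m * q + n * q2)) := by
    intro e he d hd
    obtain ⟨t1, t2⟩ := (T e).2 d hd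
    have w := weight_le hab.le h1 h2 he
    push_cast at t1 t2 ⊢
    have v1 := val (e 0) (e 1)
    have v2 := val m n
    have w' : (a' : ℤ) * (α * (e 0 * p + e 1 * p2) + β * (e 0 * q + e 1 * q2)) ≤
        a' * (α * (m * p + n * p2) + β * (m * q + n * q2)) := by
      rw [v1, v2]
      exact mul_le_mul_of_nonneg_right w hV.le
    have w'' := le_of_mul_le_mul_left w' ha0
    refine ⟨t1.trans w'', fun h => ?_⟩
    have h3 : α * (e 0 * p + e 1 * p2) + β * (e 0 * q + e 1 * q2) =
        α * (m * p + n * p2) + β * (m * q + n * q2) := le_antisymm w'' (h ▸ t1)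
    have h4 : ((a' : ℤ) * e 0 + b' * e 1) * (α * p + β * q) =
        (a' * m + b' * n) * (α * p + β * q) := by rw [← v1, ← v2, h3]
    have h5 := weight_eq ha hab h1 h2 he (mul_right_cancel₀ hV.ne' h4)
    refine ⟨h5, ?_⟩
    have h6 := t2 (h.trans h3.symm)
    rw [h6, h5, ex0, ex1]
  refine ⟨?_, ?_⟩
  · rw [comp_sum, coeff_sum, Finset.sum_eq_single (ex m n)]
    · rw [coeff_C_mul]
      have := (T (ex m n)).1
      rw [ex0, ex1] at this
      rw [ex0, ex1, this]
    · intro e he hne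
      rw [coeff_C_mul]
      by_contra h
      have hd : ex (m * p + n * p2) (m * q + n * q2) ∈ (A ^ e 0 * B ^ e 1).support :=
        mem_support_iff.2 (right_ne_zero_of_mul h)
      have := (key e he _ hd).2 (by rw [ex0, ex1])
      exact hne this.1
    · intro h
      rw [coeff_C_mul, notMem_support_iff.1 h, zero_mul]
  · intro d hd
    obtain ⟨e, he, hde⟩ := mem_comp hd
    obtain ⟨k1, k2⟩ := key e he d hde
    exact ⟨k1, fun h => (k2 h).2⟩

/-! ### polygons -/

theorem Pol.top1 {m n : ℕ} {f : P} (h : Pol m n f) :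
    Top 2 1 (m + n) 0 (coeff (ex (m + n) 0) f) f := by
  refine ⟨rfl, fun d hd => ?_⟩
  have e1 := h.1 d hd
  have e2 := h.2.1 d hd
  push_cast at *
  have e0 : (0 : ℤ) ≤ d 0 := by positivity
  have e0' : (0 : ℤ) ≤ d 1 := by positivity
  refine ⟨by linarith, fun hh => ex_ext ?_ ?_⟩
  · rw [ex0]
    have : (d 0 : ℤ) = m + n := by linarith
    exact_mod_cast this
  · rw [ex1]
    have : (d 1 : ℤ) = 0 := by linarith
    exact_mod_cast this

theorem Pol.top2 {m n : ℕ} {f : P} (h : Pol m n f) : Top 1 2 m n 1 f := by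
  refine ⟨h.2.2.2.1, fun d hd => ?_⟩
  have e1 := h.1 d hd
  have e2 := h.2.1 d hd
  refine ⟨by linarith, fun hh => ex_ext ?_ ?_⟩
  · rw [ex0]
    have : (d 0 : ℤ) = m := by linarith
    exact_mod_cast this
  · rw [ex1]
    have : (d 1 : ℤ) = n := by linarith
    exact_mod_cast this

theorem Pol.top3 {m n : ℕ} {f : P} (h : Pol m n f) :
    Top (-1) 1 0 n (coeff (ex 0 n) f) f := by
  refine ⟨rfl, fun d hd => ?_⟩
  have e1 := h.1 d hd
  have e0 : (0 : ℤ) ≤ d 0 := by positivity
  push_cast at *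
  refine ⟨by linarith, fun hh => ex_ext ?_ ?_⟩
  · rw [ex0]
    have : (d 0 : ℤ) = 0 := by linarith
    exact_mod_cast this
  · rw [ex1]
    have : (d 1 : ℤ) = n := by linarith
    exact_mod_cast this

theorem pol_comp {a' b' m n m' n' m2 n2 : ℕ} (ha : 0 < a') (hab : a' < b') (hm' : 0 < m')
    (hn' : 0 < n') (hm2 : a' * m2 = b' * m') (hn2 : a' * n2 = b' * n') {F A B : P}
    (hF : Pol m n F) (hA : Pol m' n' A) (hB : Pol m2 n2 B) :
    Pol (m * m' + n * m2) (m * n' + n * n2) (aeval ![A, B] F) := by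
  have hm2z : (a' : ℤ) * m2 = b' * m' := by exact_mod_cast hm2
  have hn2z : (a' : ℤ) * n2 = b' * n' := by exact_mod_cast hn2
  refine ⟨?_, ?_, ?_, ?_, ?_⟩
  · have := bd_comp (V := n') (V2 := n2) hA.1 hB.1 (by positivity) ha hab.le hn2z hF.1 hF.2.1
    push_cast
    exact this
  · have := bd_comp (V := m' + n') (V2 := m2 + n2) hA.2.1 hB.2.1 (by positivity) ha hab.le
      (by linear_combination hm2z + hn2z) hF.1 hF.2.1
    have e : ((m : ℤ) * (m' + n') + n * (m2 + n2)) =
        ((m * m' + n * m2 : ℕ) : ℤ) + ((m * n' + n * n2 : ℕ) : ℤ) := by push_cast; ring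
    rwa [e] at this
  · have := (top_comp hA.top1 hB.top1 (by push_cast; positivity) ha hab
      (by rw [mul_add, mul_add, hm2, hn2]) (by simp) hF.1 hF.2.1).1
    have e : m * (m' + n') + n * (m2 + n2) = m * m' + n * m2 + (m * n' + n * n2) := by ring
    rw [e] at this
    simp only [mul_zero, add_zero] at this
    rw [this, hF.2.2.2.1, one_mul]
    exact mul_ne_zero (pow_ne_zero _ hA.2.2.1) (pow_ne_zero _ hB.2.2.1)
  · have := (top_comp hA.top2 hB.top2 (by push_cast; positivity) ha hab hm2 hn2 hF.1 hF.2.1).1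
    rw [this, hF.2.2.2.1]
    simp
  · have := (top_comp hA.top3 hB.top3 (by push_cast; simpa using hn') ha hab (by simp) hn2
      hF.1 hF.2.1).1
    simp only [mul_zero, add_zero] at this
    rw [this, hF.2.2.2.1, one_mul]
    exact mul_ne_zero (pow_ne_zero _ hA.2.2.2.2) (pow_ne_zero _ hB.2.2.2.2)

/-! ### brackets -/

/-- the Jacobian determinant -/
noncomputable def br (f g : P) : P := pderiv 0 f * pderiv 1 g - pderiv 1 f * pderiv 0 g

theorem chain (F A B : P) (i : Fin 2) : pderiv i (aeval ![A, B] F) =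
    aeval ![A, B] (pderiv 0 F) * pderiv i A + aeval ![A, B] (pderiv 1 F) * pderiv i B := by
  induction F using MvPolynomial.induction_on with
  | C c => simp
  | add p q hp hq =>
    rw [map_add, map_add, hp, hq]
    simp only [map_add]
    ring
  | mul_X p j hp =>
    rw [map_mul, Derivation.leibniz, hp]
    fin_cases j
    · simp [Derivation.leibniz, pderiv_X_self, pderiv_X_of_ne]
      ring
    · simp [Derivation.leibniz, pderiv_X_self, pderiv_X_of_ne]
      ring

theorem br_comp (F G A B : P) : br (aeval ![A, B] F) (aeval ![A, B] G) =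
    aeval ![A, B] (br F G) * br A B := by
  unfold br
  rw [chain, chain, chain, chain, map_sub, map_mul, map_mul]
  ring

theorem br_sh {F G : P} {c : ℂ} (h : br F G = C c) : br (sh F) (sh G) = C c := by
  unfold sh
  rw [br_comp, h]
  have e : br (X 0 - 1 : P) (X 1 + 1 - X 0) = 1 := by
    simp [br, pderiv_X_self, pderiv_X_of_ne]
  rw [e, mul_one]
  simp

theorem top_theta {α β : ℤ} {p q : ℕ} {c : ℂ} {f : P} (hf : Top α β p q c f) (i : Fin 2) :
    Top α β p q ((ex p q i : ℕ) * c) (X i * pderiv i f) := by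
  classical
  have hc : ∀ d : Fin 2 →₀ ℕ, coeff d (X i * pderiv i f) = (d i : ℕ) * coeff d f := by
    intro d
    rw [coeff_X_mul']
    by_cases h : i ∈ d.support
    · rw [if_pos h]
      have h1 : 1 ≤ d i := Nat.one_le_iff_ne_zero.2 (Finsupp.mem_support_iff.1 h)
      rw [coeff_pderiv]
      have h2 : d - Finsupp.single i 1 + Finsupp.single i 1 = d :=
        tsub_add_cancel_of_le (Finsupp.single_le_iff.2 h1)
      rw [h2]
      have h3 : (d - Finsupp.single i 1 : Fin 2 →₀ ℕ) i = d i - 1 := by simp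
      rw [h3, Nat.cast_sub h1]
      push_cast
      ring
    · rw [if_neg h, Finsupp.notMem_support_iff.1 h]
      simp
  refine ⟨by rw [hc, hf.1], fun d hd => hf.2 d ?_⟩
  rw [mem_support_iff, hc] at hd
  exact mem_support_iff.2 (right_ne_zero_of_mul hd)

theorem vertex {α β : ℤ} {p q p' q' : ℕ} {c1 c2 c : ℂ} {f g : P} (hf : Top α β p q c1 f)
    (hg : Top α β p' q' c2 g) (hbr : br f g = C c) (hne : q + q' ≠ 1) (h1 : c1 ≠ 0)
    (h2 : c2 ≠ 0) : p * q' = q * p' := by
  have e : (X 0 * pderiv 0 f) * (X 1 * pderiv 1 g) - (X 1 * pderiv 1 f) * (X 0 * pderiv 0 g) =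
      C c * (X 0 * X 1) := by
    rw [← hbr]; unfold br; ring
  have t1 := ((top_theta hf 0).mul (top_theta hg 1)).1
  have t2 := ((top_theta hf 1).mul (top_theta hg 0)).1
  have t3 := congrArg (coeff (ex (p + p') (q + q'))) e
  rw [coeff_sub, t1, t2, coeff_C_mul] at t3
  have t4 : coeff (ex (p + p') (q + q')) (X 0 * X 1 : P) = 0 := by
    have e1 : (X 0 * X 1 : P) = monomial (ex 1 1) 1 := by
      rw [X, X, monomial_mul, one_mul]
      rfl
    rw [e1, coeff_monomial, if_neg]
    intro h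
    have := congrArg (fun t : Fin 2 →₀ ℕ => t 1) h
    simp only [ex1] at this
    exact hne this.symm
  rw [t4, mul_zero, ex0, ex1, ex0, ex1] at t3
  have t5 : ((p : ℂ) * q' - q * p') * (c1 * c2) = 0 := by linear_combination t3
  have t6 := (mul_eq_zero.1 t5).resolve_right (mul_ne_zero h1 h2)
  have t7 : (p : ℂ) * q' = q * p' := sub_eq_zero.1 t6
  exact_mod_cast t7

end Pool.Agent.Helper1.CP
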