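import Pool.Agent.Helper1.CP.Stm

/-! HUL (helper63): the hull of the support is the trapezoid iff the support is in the trapezoid, with the
vertices. -/

set_option autoImplicit false

namespace Pool.Agent.Helper1.CP.HUL

open MvPolynomial
open Pool.Agent.Helper1.CP

theorem ex_zero (p q : ℕ) : ex p q 0 = p := by
  simp [ex]

theorem ex_one (p q : ℕ) : ex p q 1 = q := by
  simp [ex]

theorem eq_ex {d : Fin 2 →₀ ℕ} {p q : ℕ} (h0 : d 0 = p) (h1 : d 1 = q) : d = ex p q := by
  ext i
  fin_cases i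
  · simpa [ex_zero] using h0
  · simpa [ex_one] using h1

theorem mono (m n : ℕ) : (X 0 ^ m * X 1 ^ n : P) = monomial (ex m n) 1 := by
  rw [X_pow_eq_monomial, X_pow_eq_monomial, monomial_mul, one_mul]
  rfl

theorem mem_hull {f : P} {p q : ℕ} (h : coeff (ex p q) f ≠ 0) : ((p : ℝ), (q : ℝ)) ∈ hull f := by
  refine subset_convexHull ℝ _ (Or.inr ⟨ex p q, ?_, ?_⟩)
  · exact mem_support_iff.2 h
  · show ((((ex p q) 0 : ℕ) : ℝ), (((ex p q) 1 : ℕ) : ℝ)) = _
    rw [ex_zero, ex_one]

theorem half {f : P} {α β B : ℝ} (hB : 0 ≤ B)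
    (h : ∀ d ∈ f.support, α * (d 0 : ℝ) + β * (d 1 : ℝ) ≤ B) :
    ∀ p ∈ hull f, α * p.1 + β * p.2 ≤ B := by
  have hc : Convex ℝ {p : ℝ × ℝ | α * p.1 + β * p.2 ≤ B} := by
    refine convex_halfSpace_le (f := fun p : ℝ × ℝ => α * p.1 + β * p.2) ⟨?_, ?_⟩ B
    · intro x y
      simp only [Prod.fst_add, Prod.snd_add]
      ring
    · intro c x
      simp only [Prod.smul_fst, Prod.smul_snd, smul_eq_mul]
      ring
  have h1 : hull f ⊆ {p : ℝ × ℝ | α * p.1 + β * p.2 ≤ B} := by
    refine convexHull_min ?_ hc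
    rintro p (rfl | ⟨d, hd, rfl⟩)
    · show α * 0 + β * 0 ≤ B
      linarith
    · exact h d hd
  exact fun p hp => h1 hp

theorem trap_convex (m n : ℕ) : Convex ℝ (trap m n) := by
  intro x hx y hy a b ha hb hab
  obtain ⟨h1, h2, h3, h4⟩ := hx
  obtain ⟨k1, k2, k3, k4⟩ := hy
  have e1 : (a • x + b • y).1 = a * x.1 + b * y.1 := by
    simp
  have e2 : (a • x + b • y).2 = a * x.2 + b * y.2 := by
    simp
  refine ⟨?_, ?_, ?_, ?_⟩
  · rw [e2]
    positivity
  · rw [e2]
    have := mul_le_mul_of_nonneg_left h2 ha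
    have := mul_le_mul_of_nonneg_left k2 hb
    have : a * (n : ℝ) + b * n = n := by rw [← add_mul, hab, one_mul]
    linarith
  · rw [e1]
    positivity
  · rw [e1, e2]
    have := mul_le_mul_of_nonneg_left h4 ha
    have := mul_le_mul_of_nonneg_left k4 hb
    have : a * ((m : ℝ) + n) + b * (m + n) = m + n := by rw [← add_mul, hab, one_mul]
    linarith

theorem trap_sub {m n : ℕ} (hm : 0 < m) (hn : 0 < n) {C : Set (ℝ × ℝ)} (hC : Convex ℝ C)
    (h0 : ((0 : ℝ), (0 : ℝ)) ∈ C) (h1 : ((m : ℝ) + n, (0 : ℝ)) ∈ C) (h2 : ((m : ℝ), (n : ℝ)) ∈ C)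
    (h3 : ((0 : ℝ), (n : ℝ)) ∈ C) : trap m n ⊆ C := by
  rintro ⟨s, t⟩ ⟨k1, k2, k3, k4⟩
  simp only at k1 k2 k3 k4
  have hn' : (0 : ℝ) < n := by exact_mod_cast hn
  have hm' : (0 : ℝ) < m := by exact_mod_cast hm
  set l : ℝ := t / n with hl
  have hl0 : 0 ≤ l := by positivity
  have hl1 : l ≤ 1 := by rw [hl, div_le_one hn']; exact k2
  have hln : l * n = t := by rw [hl]; field_simp
  have hD : 0 < (m : ℝ) + n - t := by linarith
  set u : ℝ := s / ((m : ℝ) + n - t) with hu
  have hu0 : 0 ≤ u := by positivity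
  have hu1 : u ≤ 1 := by rw [hu, div_le_one hD]; exact k4
  have hus : u * ((m : ℝ) + n - t) = s := by rw [hu]; field_simp
  have p1 : ((0 : ℝ), t) ∈ C := by
    have := hC h0 h3 (sub_nonneg.2 hl1) hl0 (by ring)
    convert this using 1
    ext
    · simp
    · simp [hln]
  have p2 : ((m : ℝ) + n - t, t) ∈ C := by
    have := hC h1 h2 (sub_nonneg.2 hl1) hl0 (by ring)
    convert this using 1
    ext
    · simp only [Prod.smul_mk, Prod.mk_add_mk, smul_eq_mul]
      linear_combination hln
    · simp [hln]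
  have := hC p1 p2 (sub_nonneg.2 hu1) hu0 (by ring)
  convert this using 1
  ext
  · simp [hus]
  · simp only [Prod.smul_mk, Prod.mk_add_mk, smul_eq_mul]
    ring

theorem trap_of {m n : ℕ} {f : P} (h1 : Bd 0 1 n f) (h2 : Bd 1 1 (m + n) f) :
    hull f ⊆ trap m n := by
  refine convexHull_min ?_ (trap_convex m n)
  rintro p (rfl | ⟨d, hd, rfl⟩)
  · refine ⟨le_rfl, ?_, le_rfl, ?_⟩
    · show (0 : ℝ) ≤ n
      positivity
    · show (0 : ℝ) ≤ m + n - 0
      rw [sub_zero]
      positivity
  · have e1 := h1 d hd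
    have e2 := h2 d hd
    have e1' : ((d 1 : ℕ) : ℝ) ≤ n := by
      have : ((d 1 : ℕ) : ℤ) ≤ n := by linarith
      exact_mod_cast this
    have e2' : ((d 0 : ℕ) : ℝ) + (d 1 : ℕ) ≤ m + n := by
      have : ((d 0 : ℕ) : ℤ) + (d 1 : ℕ) ≤ m + n := by linarith
      exact_mod_cast this
    refine ⟨?_, e1', ?_, ?_⟩
    · show (0 : ℝ) ≤ (d 1 : ℕ)
      positivity
    · show (0 : ℝ) ≤ (d 0 : ℕ)
      positivity
    · show ((d 0 : ℕ) : ℝ) ≤ m + n - (d 1 : ℕ)
      linarith

/-- an integral half space -/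
theorem halfZ {f : P} {α β B : ℤ} (hB : 0 ≤ B)
    (h : ∀ d ∈ f.support, α * (d 0 : ℤ) + β * (d 1 : ℤ) ≤ B) {p q : ℕ}
    (hp : ((p : ℝ), (q : ℝ)) ∈ hull f) : α * (p : ℤ) + β * (q : ℤ) ≤ B := by
  have h1 := half (f := f) (α := α) (β := β) (B := B) (by exact_mod_cast hB) (fun d hd => by
    have := h d hd
    exact_mod_cast this) _ hp
  simp only at h1
  exact_mod_cast h1

theorem main : S_HUL := by
  intro m n hm hn f
  constructor
  · rintro ⟨hh, hlt⟩
    have hsup : ∀ d ∈ f.support, ((d 0 : ℕ) : ℤ) + (d 1 : ℕ) ≤ m + n ∧ ((d 1 : ℕ) : ℤ) ≤ n := by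
      intro d hd
      have h1 : (((d 0 : ℕ) : ℝ), ((d 1 : ℕ) : ℝ)) ∈ trap m n := by
        rw [← hh]
        exact subset_convexHull ℝ _ (Or.inr ⟨d, hd, rfl⟩)
      obtain ⟨-, h2, -, h4⟩ := h1
      simp only at h2 h4
      constructor
      · have : ((d 0 : ℕ) : ℝ) + (d 1 : ℕ) ≤ m + n := by linarith
        exact_mod_cast this
      · exact_mod_cast h2
    have v1 : (((m + n : ℕ) : ℝ), ((0 : ℕ) : ℝ)) ∈ hull f := by
      rw [hh]
      refine ⟨?_, ?_, ?_, ?_⟩ <;> push_cast <;> first | positivity | linarith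
    have v2 : ((m : ℝ), (n : ℝ)) ∈ hull f := by
      rw [hh]
      refine ⟨?_, le_rfl, ?_, ?_⟩
      · show (0 : ℝ) ≤ n
        positivity
      · show (0 : ℝ) ≤ m
        positivity
      · show (m : ℝ) ≤ m + n - n
        linarith
    have v3 : (((0 : ℕ) : ℝ), (n : ℝ)) ∈ hull f := by
      rw [hh]
      refine ⟨?_, le_rfl, ?_, ?_⟩
      · show (0 : ℝ) ≤ n
        positivity
      · show (0 : ℝ) ≤ ((0 : ℕ) : ℝ)
        positivity
      · show ((0 : ℕ) : ℝ) ≤ m + n - n
        push_cast
        have : (0 : ℝ) ≤ m := by positivity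
        linarith
    have hmn : coeff (ex m n) f ≠ 0 := by
      intro hc
      have h1 := halfZ (f := f) (α := 1) (β := 2) (B := m + 2 * n - 1) (by omega) (fun d hd => by
        obtain ⟨e1, e2⟩ := hsup d hd
        by_contra hcon
        have e3 : d = ex m n := eq_ex (by omega) (by omega)
        rw [e3, mem_support_iff] at hd
        exact hd hc) v2
      omega
    refine ⟨fun d hd => ?_, fun d hd => ?_, ?_, ?_, ?_⟩
    · have := (hsup d hd).2
      linarith
    · have := (hsup d hd).1
      linarith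
    · intro hc
      have h1 := halfZ (f := f) (α := 2) (β := 1) (B := 2 * (m + n) - 1) (by omega) (fun d hd => by
        obtain ⟨e1, e2⟩ := hsup d hd
        by_contra hcon
        have e3 : d = ex (m + n) 0 := eq_ex (by omega) (by omega)
        rw [e3, mem_support_iff] at hd
        exact hd hc) v1
      push_cast at h1
      omega
    · by_contra hc
      have hs : (f - X 0 ^ m * X 1 ^ n).support = f.support := by
        ext d
        rw [mono, mem_support_iff, mem_support_iff, coeff_sub, coeff_monomial]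
        by_cases hd : ex m n = d
        · rw [if_pos hd, ← hd]
          exact ⟨fun _ => hmn, fun _ => sub_ne_zero.2 hc⟩
        · rw [if_neg hd, sub_zero]
      have : hull (f - X 0 ^ m * X 1 ^ n) = hull f := by
        unfold hull
        rw [hs]
      exact hlt.ne this
    · intro hc
      have h1 := halfZ (f := f) (α := -1) (β := 1) (B := n - 1) (by omega) (fun d hd => by
        obtain ⟨e1, e2⟩ := hsup d hd
        by_contra hcon
        have e3 : d = ex 0 n := eq_ex (by omega) (by omega)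
        rw [e3, mem_support_iff] at hd
        exact hd hc) v3
      omega
  · rintro ⟨b1, b2, c1, c2, c3⟩
    have hc2 : coeff (ex m n) f ≠ 0 := by rw [c2]; exact one_ne_zero
    have hsub : trap m n ⊆ hull f := by
      refine trap_sub hm hn (convex_convexHull ℝ _) (subset_convexHull ℝ _ (Or.inl rfl)) ?_
        (mem_hull hc2) ?_
      · have := mem_hull c1
        push_cast at this
        exact this
      · have := mem_hull c3
        push_cast at this
        exact this
    have hs : (f - X 0 ^ m * X 1 ^ n).support ⊆ f.support := by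
      intro d hd
      rw [mono, mem_support_iff, coeff_sub, coeff_monomial] at hd
      by_cases hd' : ex m n = d
      · rw [if_pos hd', ← hd', c2, sub_self] at hd
        exact absurd rfl hd
      · rw [if_neg hd', sub_zero] at hd
        exact mem_support_iff.2 hd
    refine ⟨(trap_of b1 b2).antisymm hsub, ?_⟩
    refine ⟨convexHull_mono (Set.insert_subset_insert (Set.image_mono (by exact_mod_cast hs))), ?_⟩
    intro hcon
    have h1 := halfZ (f := f - X 0 ^ m * X 1 ^ n) (α := 1) (β := 2) (B := m + 2 * n - 1) (by omega)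
      (fun d hd => by
        have e1 := b1 d (hs hd)
        have e2 := b2 d (hs hd)
        by_contra hcon
        have e3 : d = ex m n := eq_ex (by omega) (by omega)
        rw [e3, mono, mem_support_iff, coeff_sub, coeff_monomial, if_pos rfl, c2, sub_self] at hd
        exact hd rfl) (hcon (mem_hull hc2))
    omega

end Pool.Agent.Helper1.CP.HUL
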