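import Pool.Agent.Helper1.CP.Core

/-! Composition of trapezoidal pairs: support of `G` after the substitution, and the composition. -/

set_option autoImplicit false

namespace Pool.Agent.Helper1.CP

open MvPolynomial

theorem zero_of_mul_lt {K x y : ℤ} (h : K * x = y) (h1 : y < K) (h2 : -K < y) : x = 0 := by
  by_contra hx
  rcases lt_or_gt_of_ne hx with h3 | h3
  · nlinarith
  · nlinarith

theorem ex_eta (d : Fin 2 →₀ ℕ) : ex (d 0) (d 1) = d := by
  apply ex_ext
  · rw [ex0]
  · rw [ex1]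

theorem gb {a b m n m1 n1 : ℕ} (ha : 0 < a) (hm : 0 < m) (hmn : m < n)
    (hm1 : a * m1 = b * m) (hn1 : a * n1 = b * n) {f g : P} (f1 : Bd 1 0 m f)
    (f2 : Bd (-1) 1 (n - m) f) (f3 : coeff (ex m n) f = 1) (g1 : Bd 0 1 n1 g) {c : ℂ}
    (hbr : br f g = C c) : Bd 1 0 m1 g ∧ Bd (-1) 1 (n1 - m1) g := by
  rcases Finset.eq_empty_or_nonempty g.support with hg | hg
  · refine ⟨fun d hd => ?_, fun d hd => ?_⟩ <;> · rw [hg] at hd; exact absurd hd (Finset.notMem_empty d)
  have hn0 : 0 < n := by omega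
  have hnz : (0 : ℤ) < n := by exact_mod_cast hn0
  have haz : (0 : ℤ) < a := by exact_mod_cast ha
  have hmnz : (m : ℤ) < n := by exact_mod_cast hmn
  have hm1z : (a : ℤ) * m1 = b * m := by exact_mod_cast hm1
  have hn1z : (a : ℤ) * n1 = b * n := by exact_mod_cast hn1
  have fq : ∀ d ∈ f.support, (d 0 : ℤ) ≤ m ∧ (d 1 : ℤ) - d 0 ≤ n - m ∧ (d 1 : ℤ) ≤ n := by
    intro d hd
    have e1 := f1 d hd
    have e2 := f2 d hd
    refine ⟨by linarith, by linarith, by linarith⟩
  have gq : ∀ d ∈ g.support, (d 1 : ℤ) ≤ n1 := by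
    intro d hd
    have e1 := g1 d hd
    linarith
  have K0 : (0 : ℤ) < (n1 : ℤ) + 1 := by positivity
  constructor
  · obtain ⟨v, hv, hmax⟩ := Finset.exists_max_image g.support
      (fun d => ((n1 : ℤ) + 1) * d 0 + d 1) hg
    have tf : Top ((n1 : ℤ) + 1) 1 m n 1 f := by
      refine ⟨f3, fun d hd => ?_⟩
      obtain ⟨e1, e2, e3⟩ := fq d hd
      refine ⟨by nlinarith, fun h => ex_ext ?_ ?_⟩
      · rw [ex0]
        have : (d 0 : ℤ) = m := by
          by_contra hne
          have : (d 0 : ℤ) < m := lt_of_le_of_ne e1 hne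
          nlinarith
        exact_mod_cast this
      · rw [ex1]
        have : (d 0 : ℤ) = m := by
          by_contra hne
          have : (d 0 : ℤ) < m := lt_of_le_of_ne e1 hne
          nlinarith
        have : (d 1 : ℤ) = n := by rw [this] at h; linarith
        exact_mod_cast this
    have tg : Top ((n1 : ℤ) + 1) 1 (v 0) (v 1) (coeff v g) g := by
      refine ⟨by rw [ex_eta], fun d hd => ?_⟩
      have e1 := hmax d hd
      refine ⟨by linarith, fun h => ?_⟩
      have k1 := gq d hd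
      have k2 := gq v hv
      have k3 : (0 : ℤ) ≤ d 1 := by positivity
      have k4 : (0 : ℤ) ≤ v 1 := by positivity
      have x0 : (d 0 : ℤ) - v 0 = 0 :=
        zero_of_mul_lt (K := (n1 : ℤ) + 1) (y := v 1 - d 1) (by linear_combination h)
          (by linarith) (by linarith)
      rw [ex_eta]
      have x1 : (d 0 : ℤ) = v 0 := by linarith
      have x2 : (d 1 : ℤ) = v 1 := by rw [x1] at h; linarith
      exact ex_ext (by exact_mod_cast x1) (by exact_mod_cast x2)
    have hver := vertex tf tg hbr (by omega) one_ne_zero (mem_support_iff.1 hv)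
    have hverz : (m : ℤ) * v 1 = n * v 0 := by exact_mod_cast hver
    have hv0 : (v 0 : ℤ) ≤ m1 := by
      have k2 := gq v hv
      have h1 : (a * n : ℤ) * v 0 ≤ (a * n : ℤ) * m1 := by
        have : (a : ℤ) * n * v 0 = a * m * v 1 := by linear_combination -(a : ℤ) * hverz
        rw [this]
        have : (a : ℤ) * n * m1 = m * (a * n1) := by linear_combination (n : ℤ) * hm1z - (m : ℤ) * hn1z
        rw [this]
        have hmz : (0 : ℤ) ≤ m * a := by positivity
        nlinarith
      exact le_of_mul_le_mul_left h1 (by positivity)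
    intro d hd
    have e1 := hmax d hd
    have k2 := gq v hv
    have k3 : (0 : ℤ) ≤ d 1 := by positivity
    have : (d 0 : ℤ) < v 0 + 1 := by
      by_contra hh
      push Not at hh
      nlinarith
    linarith
  · obtain ⟨v, hv, hmax⟩ := Finset.exists_max_image g.support
      (fun d => (-((n1 : ℤ) + 1)) * d 0 + ((n1 : ℤ) + 2) * d 1) hg
    have tf : Top (-((n1 : ℤ) + 1)) ((n1 : ℤ) + 2) m n 1 f := by
      refine ⟨f3, fun d hd => ?_⟩
      obtain ⟨e1, e2, e3⟩ := fq d hd
      refine ⟨by nlinarith, fun h => ?_⟩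
      have x0 : (d 1 : ℤ) = n := by
        by_contra hne
        have : (d 1 : ℤ) < n := lt_of_le_of_ne e3 hne
        nlinarith
      have x1 : (d 1 : ℤ) - d 0 = n - m := by
        by_contra hne
        have : (d 1 : ℤ) - d 0 < n - m := lt_of_le_of_ne e2 hne
        nlinarith
      refine ex_ext ?_ ?_
      · rw [ex0]
        have : (d 0 : ℤ) = m := by linarith
        exact_mod_cast this
      · rw [ex1]
        exact_mod_cast x0
    have tg : Top (-((n1 : ℤ) + 1)) ((n1 : ℤ) + 2) (v 0) (v 1) (coeff v g) g := by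
      refine ⟨by rw [ex_eta], fun d hd => ?_⟩
      have e1 := hmax d hd
      refine ⟨by linarith, fun h => ?_⟩
      have k1 := gq d hd
      have k2 := gq v hv
      have k3 : (0 : ℤ) ≤ d 1 := by positivity
      have k4 : (0 : ℤ) ≤ v 1 := by positivity
      have x0 : ((d 1 : ℤ) - d 0) - (v 1 - v 0) = 0 :=
        zero_of_mul_lt (K := (n1 : ℤ) + 1) (y := v 1 - d 1) (by linear_combination h)
          (by linarith) (by linarith)
      rw [ex_eta]
      have x2 : (d 1 : ℤ) = v 1 := by linear_combination h - ((n1 : ℤ) + 1) * x0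
      have x1 : (d 0 : ℤ) = v 0 := by linarith
      exact ex_ext (by exact_mod_cast x1) (by exact_mod_cast x2)
    have hver := vertex tf tg hbr (by omega) one_ne_zero (mem_support_iff.1 hv)
    have hverz : (m : ℤ) * v 1 = n * v 0 := by exact_mod_cast hver
    have hv0 : (v 1 : ℤ) - v 0 ≤ n1 - m1 := by
      have k2 := gq v hv
      have h1 : (a * n : ℤ) * ((v 1 : ℤ) - v 0) ≤ (a * n : ℤ) * (n1 - m1) := by
        have : (a : ℤ) * n * ((v 1 : ℤ) - v 0) = a * (n - m) * v 1 := by
          linear_combination (a : ℤ) * hverz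
        rw [this]
        have : (a : ℤ) * n * (n1 - m1) = (n - m) * (a * n1) := by
          linear_combination -(n : ℤ) * hm1z + (m : ℤ) * hn1z
        rw [this]
        have hmz : (0 : ℤ) ≤ (n - m) * a := mul_nonneg (by linarith) haz.le
        nlinarith
      exact le_of_mul_le_mul_left h1 (by positivity)
    intro d hd
    have e1 := hmax d hd
    have k2 := gq v hv
    have k3 : (0 : ℤ) ≤ d 1 := by positivity
    have : (d 1 : ℤ) - d 0 < (v 1 - v 0) + 1 := by
      by_contra hh
      push Not at hh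
      nlinarith
    linarith

/-- a trapezoidal Keller pair with the parameters `a, b, m, n` -/
def Kp (a b m n : ℕ) (F G : P) : Prop :=
  Pol m n F ∧ Dv m n F ∧ Pol (b * m / a) (b * n / a) G ∧ ∃ c : ℂ, c ≠ 0 ∧ br F G = C c

/-- the set of the parameters -/
def InQ (a b m n : ℕ) : Prop :=
  0 < m ∧ m < n ∧ a ∣ m ∧ a ∣ n ∧ Nat.gcd a b = 1 ∧ 2 ≤ a ∧ a < b

theorem sh_comp (F A B : P) : sh (aeval ![A, B] F) = aeval ![sh A, sh B] F := by
  have h : sh.comp (aeval ![A, B]) = aeval ![sh A, sh B] := by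
    apply MvPolynomial.algHom_ext
    intro i
    fin_cases i <;> simp
  exact congrArg (fun φ : P →ₐ[ℂ] P => φ F) h

theorem inq_comp {a b m n a' b' m' n' : ℕ} (h : InQ a b m n) (h' : InQ a' b' m' n') :
    InQ a b (m' / a' * (a' * m + b' * n)) (n' / a' * (a' * m + b' * n)) := by
  obtain ⟨h1, h2, ⟨μ, rfl⟩, ⟨ν, rfl⟩, h5, h6, h7⟩ := h
  obtain ⟨k1, k2, ⟨μ', rfl⟩, ⟨ν', rfl⟩, k5, k6, k7⟩ := h'
  have ha : 0 < a := by omega
  have ha' : 0 < a' := by omega
  rw [Nat.mul_div_cancel_left _ ha', Nat.mul_div_cancel_left _ ha']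
  have e : a' * (a * μ) + b' * (a * ν) = a * (a' * μ + b' * ν) := by ring
  have hμ : 0 < μ := Nat.pos_of_mul_pos_left h1
  have hμ' : 0 < μ' := Nat.pos_of_mul_pos_left k1
  have hν' : μ' < ν' := Nat.lt_of_mul_lt_mul_left k2
  have hpos : 0 < a' * (a * μ) + b' * (a * ν) := by positivity
  refine ⟨by positivity, Nat.mul_lt_mul_of_pos_right hν' hpos, ?_, ?_, h5, h6, h7⟩
  · rw [e]; exact ⟨μ' * (a' * μ + b' * ν), by ring⟩
  · rw [e]; exact ⟨ν' * (a' * μ + b' * ν), by ring⟩

theorem kp_comp (hR1 : S_REP1) (hR2 : S_REP2) {a b m n a' b' m' n' : ℕ} (h : InQ a b m n)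
    (h' : InQ a' b' m' n') {F G A B : P} (hF : Kp a b m n F G) (hA : Kp a' b' m' n' A B) :
    Kp a b (m' / a' * (a' * m + b' * n)) (n' / a' * (a' * m + b' * n))
      (aeval ![A, B] F) (aeval ![A, B] G) := by
  obtain ⟨h1, h2, ⟨μ, rfl⟩, ⟨ν, rfl⟩, h5, h6, h7⟩ := h
  obtain ⟨k1, k2, ⟨μ', rfl⟩, ⟨ν', rfl⟩, k5, k6, k7⟩ := h'
  have ha : 0 < a := by omega
  have ha' : 0 < a' := by omega
  obtain ⟨F1, F2, F3, c, hc, F4⟩ := hF
  obtain ⟨A1, A2, A3, c', hc', A4⟩ := hA
  have q1 : ∀ x : ℕ, b' * (a' * x) / a' = b' * x := by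
    intro x
    rw [show b' * (a' * x) = a' * (b' * x) by ring, Nat.mul_div_cancel_left _ ha']
  have q2 : ∀ x : ℕ, b * (a * x) / a = b * x := by
    intro x
    rw [show b * (a * x) = a * (b * x) by ring, Nat.mul_div_cancel_left _ ha]
  rw [Nat.mul_div_cancel_left _ ha', Nat.mul_div_cancel_left _ ha']
  rw [q1, q1] at A3
  rw [q2, q2] at F3
  have e1 : a * μ * (a' * μ') + a * ν * (b' * μ') = μ' * (a' * (a * μ) + b' * (a * ν)) := by ring
  have e2 : a * μ * (a' * ν') + a * ν * (b' * ν') = ν' * (a' * (a * μ) + b' * (a * ν)) := by ring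
  have e3 : b * μ * (a' * μ') + b * ν * (b' * μ') =
      b * (μ' * (a' * (a * μ) + b' * (a * ν))) / a := by
    rw [show b * (μ' * (a' * (a * μ) + b' * (a * ν))) =
      a * (b * μ * (a' * μ') + b * ν * (b' * μ')) by ring, Nat.mul_div_cancel_left _ ha]
  have e4 : b * μ * (a' * ν') + b * ν * (b' * ν') =
      b * (ν' * (a' * (a * μ) + b' * (a * ν))) / a := by
    rw [show b * (ν' * (a' * (a * μ) + b' * (a * ν))) =
      a * (b * μ * (a' * ν') + b * ν * (b' * ν')) by ring, Nat.mul_div_cancel_left _ ha]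
  have hn' : 0 < a' * ν' := by omega
  refine ⟨?_, ?_, ?_, c * c', mul_ne_zero hc hc', ?_⟩
  · have := pol_comp ha' k7 k1 hn' (m2 := b' * μ') (n2 := b' * ν') (by ring) (by ring) F1 A1 A3
    rwa [e1, e2] at this
  · obtain ⟨r1, r2, r3⟩ := hR1 _ _ k1 k2 A A1 A2
    have hb : Bd 0 1 (b' * ν' : ℕ) (sh B) := by
      -- the second degree does not grow
      have s : sh B = aeval ![(X 0 - 1 : P), X 1 + 1 - X 0] B := rfl
      intro d hd
      rw [s] at hd
      obtain ⟨e, he, hde⟩ := mem_comp hd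
      have y0 : Bd 0 1 0 (X 0 - 1 : P) := by
        intro t ht
        have : t ∈ (X 0 : P).support ∪ (1 : P).support := support_sub _ _ _ ht
        rcases Finset.mem_union.1 this with h | h
        · rw [support_X, Finset.mem_singleton] at h
          subst h
          simp
        · have := Bd.one 0 1 t h
          simpa using this
      have y1 : Bd 0 1 1 (X 1 + 1 - X 0 : P) := by
        intro t ht
        have : t ∈ (X 1 + 1 : P).support ∪ (X 0 : P).support := support_sub _ _ _ ht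
        rcases Finset.mem_union.1 this with h | h
        · rcases Finset.mem_union.1 (support_add h) with h | h
          · rw [support_X, Finset.mem_singleton] at h
            subst h
            simp
          · have := Bd.one 0 1 t h
            linarith
        · rw [support_X, Finset.mem_singleton] at h
          subst h
          simp
      have k3 := ((y0.pow (e 0)).mul (y1.pow (e 1))) d hde
      have k4 := A3.1 e he
      simp only [mul_zero, zero_add, mul_one, zero_mul, one_mul] at k3 k4 ⊢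
      exact k3.trans k4
    obtain ⟨g1, g2⟩ := gb (a := a') (b := b') ha' k1 k2 (m1 := b' * μ') (n1 := b' * ν') (by ring)
      (by ring) r1 r2 r3 hb (br_sh A4)
    have hMN : μ' * (a' * (a * μ) + b' * (a * ν)) < ν' * (a' * (a * μ) + b' * (a * ν)) := by
      have hν' : μ' < ν' := Nat.lt_of_mul_lt_mul_left k2
      have hμ : 0 < μ := Nat.pos_of_mul_pos_left h1
      exact Nat.mul_lt_mul_of_pos_right hν' (by positivity)
    apply hR2 _ _ hMN
    · rw [sh_comp]
      have := bd_comp (V := ((a' * μ' : ℕ) : ℤ)) (V2 := ((b' * μ' : ℕ) : ℤ)) r1 g1 (by positivity)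
        ha' k7.le (by push_cast; ring) F1.1 F1.2.1
      rw [← e1]
      push_cast at this ⊢
      exact this
    · rw [sh_comp]
      have := bd_comp (V := ((a' * ν' : ℕ) : ℤ) - ((a' * μ' : ℕ) : ℤ))
        (V2 := ((b' * ν' : ℕ) : ℤ) - ((b' * μ' : ℕ) : ℤ)) r2 g2
        (by have : ((a' * μ' : ℕ) : ℤ) < ((a' * ν' : ℕ) : ℤ) := by exact_mod_cast k2
            linarith)
        ha' k7.le (by push_cast; ring) F1.1 F1.2.1
      rw [← e1, ← e2]
      have e5 : ((a * μ : ℕ) : ℤ) * (((a' * ν' : ℕ) : ℤ) - ((a' * μ' : ℕ) : ℤ)) +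
          ((a * ν : ℕ) : ℤ) * (((b' * ν' : ℕ) : ℤ) - ((b' * μ' : ℕ) : ℤ)) =
          ((a * μ * (a' * ν') + a * ν * (b' * ν') : ℕ) : ℤ) -
            ((a * μ * (a' * μ') + a * ν * (b' * μ') : ℕ) : ℤ) := by push_cast; ring
      rw [← e5]
      exact this
  · have := pol_comp ha' k7 k1 hn' (m2 := b' * μ') (n2 := b' * ν') (by ring) (by ring) F3 A1 A3
    rwa [e3, e4] at this
  · rw [br_comp, F4, A4, C_mul]
    congr 1
    simp

end Pool.Agent.Helper1.CP
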