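import Pool.Agent.Helper1.CP.Main

/-! The pairs `(F(A ^ k + B, A), G(A ^ k + B, A))`. -/

set_option autoImplicit false

namespace Pool.Agent.Helper1.CP

open MvPolynomial

theorem wt_le {k m n : ℕ} (hk : 2 ≤ k) {F : P} (h1 : Bd 0 1 n F) (h2 : Bd 1 1 (m + n) F)
    {d : Fin 2 →₀ ℕ} (hd : d ∈ F.support) : (k : ℤ) * d 0 + d 1 ≤ k * (m + n) := by
  have e2 := h2 d hd
  have e3 : (0 : ℤ) ≤ d 1 := by positivity
  have hkz : (2 : ℤ) ≤ k := by exact_mod_cast hk
  nlinarith

theorem wt_eq {k m n : ℕ} (hk : 2 ≤ k) {F : P} (h1 : Bd 0 1 n F) (h2 : Bd 1 1 (m + n) F)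
    {d : Fin 2 →₀ ℕ} (hd : d ∈ F.support) (h : (k : ℤ) * d 0 + d 1 = k * (m + n)) :
    d = ex (m + n) 0 := by
  have e2 := h2 d hd
  have e3 : (0 : ℤ) ≤ d 1 := by positivity
  have hkz : (2 : ℤ) ≤ k := by exact_mod_cast hk
  have k1 : (d 1 : ℤ) = 0 := by
    by_contra hne
    have : (0 : ℤ) < d 1 := lt_of_le_of_ne e3 (Ne.symm hne)
    nlinarith
  have k0 : (d 0 : ℤ) = m + n := by
    rw [k1, add_zero] at h
    exact mul_left_cancel₀ (by linarith : (k : ℤ) ≠ 0) h
  apply ex_ext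
  · rw [ex0]; exact_mod_cast k0
  · rw [ex1]; exact_mod_cast k1

theorem bd_ray {α β V : ℤ} {k m n : ℕ} (hk : 2 ≤ k) {A B F : P} (hA : Bd α β (k * V) A)
    (hB : Bd α β V B) (hV : 0 ≤ V) (h1 : Bd 0 1 n F) (h2 : Bd 1 1 (m + n) F) :
    Bd α β (k * (m + n) * V) (aeval ![A, B] F) := by
  intro d hd
  obtain ⟨e, he, hde⟩ := mem_comp hd
  have k1 := ((hA.pow (e 0)).mul (hB.pow (e 1))) d hde
  have k2 := wt_le hk h1 h2 he
  refine k1.trans ?_
  have e3 : (e 0 : ℤ) * (k * V) + e 1 * V = (k * e 0 + e 1) * V := by ring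
  rw [e3]
  exact mul_le_mul_of_nonneg_right k2 hV

theorem top_ray {α β : ℤ} {k p q : ℕ} (hk : 2 ≤ k) {c1 c2 : ℂ} {A B F : P}
    (hA : Top α β (k * p) (k * q) c1 A) (hB : Top α β p q c2 B) (hV : 0 < α * p + β * q)
    {m n : ℕ} (h1 : Bd 0 1 n F) (h2 : Bd 1 1 (m + n) F) :
    Top α β (k * (m + n) * p) (k * (m + n) * q) (coeff (ex (m + n) 0) F * c1 ^ (m + n))
      (aeval ![A, B] F) := by
  have T : ∀ e : Fin 2 →₀ ℕ, Top α β (e 0 * (k * p) + e 1 * p) (e 0 * (k * q) + e 1 * q)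
      (c1 ^ e 0 * c2 ^ e 1) (A ^ e 0 * B ^ e 1) := fun e => (hA.pow (e 0)).mul (hB.pow (e 1))
  have key : ∀ e ∈ F.support, ∀ d ∈ (A ^ e 0 * B ^ e 1).support,
      α * d 0 + β * d 1 ≤ α * ((k * (m + n) * p : ℕ) : ℤ) + β * ((k * (m + n) * q : ℕ) : ℤ) ∧
      (α * d 0 + β * d 1 = α * ((k * (m + n) * p : ℕ) : ℤ) + β * ((k * (m + n) * q : ℕ) : ℤ) →
        e = ex (m + n) 0 ∧ d = ex (k * (m + n) * p) (k * (m + n) * q)) := by
    intro e he d hd
    obtain ⟨t1, t2⟩ := (T e).2 d hd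
    have w := wt_le hk h1 h2 he
    push_cast at t1 t2 ⊢
    have v1 : α * (e 0 * (k * p) + e 1 * p) + β * (e 0 * (k * q) + e 1 * q) =
        ((k : ℤ) * e 0 + e 1) * (α * p + β * q) := by ring
    have v2 : α * (k * (m + n) * p) + β * (k * (m + n) * q) =
        ((k : ℤ) * (m + n)) * (α * p + β * q) := by ring
    have w' := mul_le_mul_of_nonneg_right w hV.le
    rw [← v1, ← v2] at w'
    refine ⟨t1.trans w', fun h => ?_⟩
    have h3 := le_antisymm w' (h ▸ t1)
    have h4 : ((k : ℤ) * e 0 + e 1) * (α * p + β * q) =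
        ((k : ℤ) * (m + n)) * (α * p + β * q) := by rw [← v1, ← v2, h3]
    have h5 := wt_eq hk h1 h2 he (mul_right_cancel₀ hV.ne' h4)
    refine ⟨h5, ?_⟩
    have h6 := t2 (h.trans h3.symm)
    rw [h6, h5, ex0, ex1]
    congr 1 <;> ring
  refine ⟨?_, ?_⟩
  · rw [comp_sum, coeff_sum, Finset.sum_eq_single (ex (m + n) 0)]
    · rw [coeff_C_mul]
      have := (T (ex (m + n) 0)).1
      rw [ex0, ex1] at this
      rw [ex0, ex1]
      have e1 : (m + n) * (k * p) + 0 * p = k * (m + n) * p := by ring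
      have e2 : (m + n) * (k * q) + 0 * q = k * (m + n) * q := by ring
      rw [e1, e2] at this
      rw [this, pow_zero, mul_one]
    · intro e he hne
      rw [coeff_C_mul]
      by_contra h
      have hd : ex (k * (m + n) * p) (k * (m + n) * q) ∈ (A ^ e 0 * B ^ e 1).support :=
        mem_support_iff.2 (right_ne_zero_of_mul h)
      have := (key e he _ hd).2 (by rw [ex0, ex1])
      exact hne this.1
    · intro h
      rw [coeff_C_mul, notMem_support_iff.1 h, zero_mul]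
  · intro d hd
    obtain ⟨e, he, hde⟩ := mem_comp hd
    obtain ⟨k1, k2⟩ := key e he d hde
    exact ⟨k1, fun h => (k2 h).2⟩

/-- adding something smaller does not change the top -/
theorem Top.add {α β : ℤ} {p q : ℕ} {c : ℂ} {f g : P} (hf : Top α β p q c f) {V : ℤ}
    (hg : Bd α β V g) (hV : V < α * p + β * q) : Top α β p q c (f + g) := by
  classical
  refine ⟨?_, fun d hd => ?_⟩
  · rw [coeff_add, hf.1]
    have : coeff (ex p q) g = 0 := by
      by_contra h
      have := hg _ (mem_support_iff.2 h)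
      rw [ex0, ex1] at this
      linarith
    rw [this, add_zero]
  · rcases Finset.mem_union.1 (support_add hd) with h | h
    · exact hf.2 d h
    · have := hg d h
      exact ⟨by linarith, fun e => absurd e (by linarith)⟩

theorem Bd.add {α β V W : ℤ} {f g : P} (hf : Bd α β V f) (hg : Bd α β W g) (h : W ≤ V) :
    Bd α β V (f + g) := by
  classical
  intro d hd
  rcases Finset.mem_union.1 (support_add hd) with h1 | h1
  · exact hf d h1
  · exact (hg d h1).trans h

theorem Top.bd {α β : ℤ} {p q : ℕ} {c : ℂ} {f : P} (h : Top α β p q c f) :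
    Bd α β (α * p + β * q) f := fun d hd => (h.2 d hd).1

theorem Bd.smul {α β V : ℤ} {f : P} (h : Bd α β V f) (u : ℂ) : Bd α β V (C u * f) := by
  intro d hd
  rw [mem_support_iff, coeff_C_mul] at hd
  exact h d (mem_support_iff.2 (right_ne_zero_of_mul hd))

/-- the polygon of `F(A ^ k + B, A)`, normalised -/
theorem pol_ray {a' b' m n m' n' m2 n2 k : ℕ} (ha : 0 < a') (hk : 2 ≤ k) (hk2 : b' < k * a')
    (hm' : 0 < m') (hn' : 0 < n') (hm2 : a' * m2 = b' * m') (hn2 : a' * n2 = b' * n')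
    {F A B : P} (hF : Pol m n F) (hA : Pol m' n' A) (hB : Pol m2 n2 B) :
    Pol (k * (m + n) * m') (k * (m + n) * n')
      (C (coeff (ex (m + n) 0) F)⁻¹ * aeval ![A ^ k + B, A] F) := by
  have haz : (0 : ℤ) < a' := by exact_mod_cast ha
  have hk2z : (b' : ℤ) < k * a' := by exact_mod_cast hk2
  have hm2z : (a' : ℤ) * m2 = b' * m' := by exact_mod_cast hm2
  have hn2z : (a' : ℤ) * n2 = b' * n' := by exact_mod_cast hn2
  have hmz : (0 : ℤ) < m' := by exact_mod_cast hm'
  have hnz : (0 : ℤ) < n' := by exact_mod_cast hn'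
  have lm : (m2 : ℤ) < k * m' := by
    apply lt_of_mul_lt_mul_left _ haz.le
    rw [hm2z]
    nlinarith
  have ln : (n2 : ℤ) < k * n' := by
    apply lt_of_mul_lt_mul_left _ haz.le
    rw [hn2z]
    nlinarith
  have hc0 := hF.2.2.1
  have hci : (coeff (ex (m + n) 0) F)⁻¹ ≠ 0 := inv_ne_zero hc0
  refine ⟨?_, ?_, ?_, ?_, ?_⟩
  · have x1 : Bd 0 1 (k * n') (A ^ k + B) := (hA.1.pow k).add hB.1 ln.le
    have := (bd_ray hk x1 hA.1 (by positivity) hF.1 hF.2.1).smul (coeff (ex (m + n) 0) F)⁻¹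
    push_cast
    exact this
  · have x1 : Bd 1 1 (k * (m' + n')) (A ^ k + B) := (hA.2.1.pow k).add hB.2.1 (by nlinarith)
    have := (bd_ray hk x1 hA.2.1 (by positivity) hF.1 hF.2.1).smul (coeff (ex (m + n) 0) F)⁻¹
    have e : ((k : ℤ) * (m + n) * (m' + n')) =
        ((k * (m + n) * m' : ℕ) : ℤ) + ((k * (m + n) * n' : ℕ) : ℤ) := by push_cast; ring
    rwa [e] at this
  · have x1 := (hA.top1.pow k).add hB.top1.bd (by push_cast; nlinarith)
    have := (top_ray hk x1 hA.top1 (by push_cast; positivity) hF.1 hF.2.1).1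
    have e : k * (m + n) * (m' + n') = k * (m + n) * m' + k * (m + n) * n' := by ring
    rw [e, mul_zero] at this
    rw [coeff_C_mul, this, ← mul_assoc, inv_mul_cancel₀ hc0, one_mul]
    exact pow_ne_zero _ (pow_ne_zero _ hA.2.2.1)
  · have x1 := (hA.top2.pow k).add hB.top2.bd (by push_cast; nlinarith)
    have := (top_ray hk x1 hA.top2 (by push_cast; positivity) hF.1 hF.2.1).1
    rw [coeff_C_mul, this, ← mul_assoc, inv_mul_cancel₀ hc0, one_mul]
    simp
  · have x1 := (hA.top3.pow k).add hB.top3.bd (by push_cast; nlinarith)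
    have := (top_ray hk x1 hA.top3 (by push_cast; simpa using hn') hF.1 hF.2.1).1
    rw [mul_zero] at this
    rw [coeff_C_mul, this, ← mul_assoc, inv_mul_cancel₀ hc0, one_mul]
    exact pow_ne_zero _ (pow_ne_zero _ hA.2.2.2.2)

theorem br_ray (A B : P) (k : ℕ) : br (A ^ k + B) A = - br A B := by
  unfold br
  simp only [map_add, Derivation.leibniz_pow, smul_eq_mul, nsmul_eq_mul]
  ring

theorem br_smul (u v : ℂ) (f g : P) : br (C u * f) (C v * g) = C (u * v) * br f g := by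
  unfold br
  simp only [Derivation.leibniz, smul_eq_mul, pderiv_C, mul_zero, add_zero, C_mul]
  ring

end Pool.Agent.Helper1.CP
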