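import Pool.Agent.Helper1.CP.Ray

/-! The pairs `(F(A ^ k + B, A), G(A ^ k + B, A))` are trapezoidal Keller pairs. -/

set_option autoImplicit false

namespace Pool.Agent.Helper1.CP

open MvPolynomial

/-- the second degree does not grow under `sh` -/
theorem bd_sh {V : ℤ} {B : P} (hB : Bd 0 1 V B) : Bd 0 1 V (sh B) := by
  classical
  have s : sh B = aeval ![(X 0 - 1 : P), X 1 + 1 - X 0] B := rfl
  intro d hd
  rw [s] at hd
  obtain ⟨e, he, hde⟩ := mem_comp hd
  have y0 : Bd 0 1 0 (X 0 - 1 : P) := by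
    intro t ht
    have : t ∈ (X 0 : P).support ∪ (1 : P).support := support_sub _ _ _ ht
    rcases Finset.mem_union.1 this with h | h
    · rw [support_X, Finset.mem_singleton] at h
      subst h
      simp
    · have := Bd.one 0 1 t h
      simpa using this
  have y1 : Bd 0 1 1 (X 1 + 1 - X 0 : P) := by
    intro t ht
    have : t ∈ (X 1 + 1 : P).support ∪ (X 0 : P).support := support_sub _ _ _ ht
    rcases Finset.mem_union.1 this with h | h
    · rcases Finset.mem_union.1 (support_add h) with h | h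
      · rw [support_X, Finset.mem_singleton] at h
        subst h
        simp
      · have := Bd.one 0 1 t h
        linarith
    · rw [support_X, Finset.mem_singleton] at h
      subst h
      simp
  have k3 := ((y0.pow (e 0)).mul (y1.pow (e 1))) d hde
  have k4 := hB e he
  simp only [mul_zero, zero_add, mul_one, zero_mul, one_mul] at k3 k4 ⊢
  exact k3.trans k4

theorem inq_ray {a b m n a' b' m' n' k : ℕ} (h : InQ a b m n) (h' : InQ a' b' m' n')
    (hk : 0 < k) : InQ a b (k * (m + n) * m') (k * (m + n) * n') := by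
  obtain ⟨h1, h2, ⟨μ, rfl⟩, ⟨ν, rfl⟩, h5, h6, h7⟩ := h
  obtain ⟨k1, k2, -, -, -, -, -⟩ := h'
  have hpos : 0 < k * (a * μ + a * ν) := Nat.mul_pos hk (by omega)
  exact ⟨Nat.mul_pos hpos k1, Nat.mul_lt_mul_of_pos_left k2 hpos,
    ⟨k * (μ + ν) * m', by ring⟩, ⟨k * (μ + ν) * n', by ring⟩, h5, h6, h7⟩

theorem kp_ray (hR1 : S_REP1) (hR2 : S_REP2) {a b m n a' b' m' n' k : ℕ} (hk : 2 ≤ k)
    (hk2 : b' < k * a') (h : InQ a b m n)
    (h' : InQ a' b' m' n') {F G A B : P} (hF : Kp a b m n F G) (hA : Kp a' b' m' n' A B) :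
    ∃ u v : ℂ, Kp a b (k * (m + n) * m') (k * (m + n) * n')
      (C u * aeval ![A ^ k + B, A] F) (C v * aeval ![A ^ k + B, A] G) := by
  obtain ⟨h1, h2, ⟨μ, rfl⟩, ⟨ν, rfl⟩, h5, h6, h7⟩ := h
  obtain ⟨k1, k2, ⟨μ', rfl⟩, ⟨ν', rfl⟩, k5, k6, k7⟩ := h'
  have ha : 0 < a := by omega
  have ha' : 0 < a' := by omega
  obtain ⟨F1, F2, F3, c, hc, F4⟩ := hF
  obtain ⟨A1, A2, A3, c', hc', A4⟩ := hA
  have q1 : ∀ x : ℕ, b' * (a' * x) / a' = b' * x := by
    intro x
    rw [show b' * (a' * x) = a' * (b' * x) by ring, Nat.mul_div_cancel_left _ ha']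
  have q2 : ∀ x : ℕ, b * (a * x) / a = b * x := by
    intro x
    rw [show b * (a * x) = a * (b * x) by ring, Nat.mul_div_cancel_left _ ha]
  rw [q1, q1] at A3
  rw [q2, q2] at F3
  have hn' : 0 < a' * ν' := by omega
  have hμν : a' * μ' < a' * ν' := k2
  have u0 := inv_ne_zero F1.2.2.1
  have v0 := inv_ne_zero F3.2.2.1
  refine ⟨(coeff (ex (a * μ + a * ν) 0) F)⁻¹, (coeff (ex (b * μ + b * ν) 0) G)⁻¹, ?_, ?_, ?_,
    (coeff (ex (a * μ + a * ν) 0) F)⁻¹ * (coeff (ex (b * μ + b * ν) 0) G)⁻¹ * (c * (-c')),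
    mul_ne_zero (mul_ne_zero u0 v0) (mul_ne_zero hc (neg_ne_zero.2 hc')), ?_⟩
  · exact pol_ray ha' hk hk2 k1 hn' (m2 := b' * μ') (n2 := b' * ν') (by ring) (by ring) F1 A1 A3
  · obtain ⟨r1, r2, r3⟩ := hR1 _ _ k1 k2 A A1 A2
    have hb : Bd 0 1 (b' * ν' : ℕ) (sh B) := bd_sh A3.1
    obtain ⟨g1, g2⟩ := gb (a := a') (b := b') ha' k1 k2 (m1 := b' * μ') (n1 := b' * ν') (by ring)
      (by ring) r1 r2 r3 hb (br_sh A4)
    have hpos : 0 < k * (a * μ + a * ν) := Nat.mul_pos (by omega) (by omega)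
    have hMN : k * (a * μ + a * ν) * (a' * μ') < k * (a * μ + a * ν) * (a' * ν') :=
      Nat.mul_lt_mul_of_pos_left k2 hpos
    have hshF : ∀ u : ℂ, sh (C u * aeval ![A ^ k + B, A] F) =
        C u * aeval ![sh A ^ k + sh B, sh A] F := by
      intro u
      rw [map_mul, sh_comp, map_add, map_pow]
      congr 1
      simp [sh]
    have hk2z : (b' : ℤ) ≤ k * a' := by exact_mod_cast hk2.le
    have hμz : (0 : ℤ) ≤ μ' := by positivity
    have hνμ : (0 : ℤ) ≤ (ν' : ℤ) - μ' := by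
      have : μ' < ν' := Nat.lt_of_mul_lt_mul_left k2
      have : (μ' : ℤ) < ν' := by exact_mod_cast this
      linarith
    have ha'z : (0 : ℤ) ≤ a' := by positivity
    apply hR2 _ _ hMN
    · rw [hshF]
      have x1 : Bd 1 0 (k * ((a' * μ' : ℕ) : ℤ)) (sh A ^ k + sh B) := by
        refine (r1.pow k).add g1 ?_
        push_cast
        nlinarith
      have := (bd_ray hk x1 r1 (by positivity) F1.1 F1.2.1).smul (coeff (ex (a * μ + a * ν) 0) F)⁻¹
      push_cast at this ⊢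
      exact this
    · rw [hshF]
      have x1 : Bd (-1) 1 (k * (((a' * ν' : ℕ) : ℤ) - ((a' * μ' : ℕ) : ℤ))) (sh A ^ k + sh B) := by
        refine (r2.pow k).add g2 ?_
        push_cast
        nlinarith
      have := (bd_ray hk x1 r2 (by push_cast; nlinarith) F1.1 F1.2.1).smul
        (coeff (ex (a * μ + a * ν) 0) F)⁻¹
      have e5 : (k : ℤ) * (((a * μ : ℕ) : ℤ) + ((a * ν : ℕ) : ℤ)) *
          (((a' * ν' : ℕ) : ℤ) - ((a' * μ' : ℕ) : ℤ)) =
          ((k * (a * μ + a * ν) * (a' * ν') : ℕ) : ℤ) -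
            ((k * (a * μ + a * ν) * (a' * μ') : ℕ) : ℤ) := by push_cast; ring
      rw [← e5]
      exact this
  · have := pol_ray ha' hk hk2 k1 hn' (m2 := b' * μ') (n2 := b' * ν') (by ring) (by ring) F3 A1 A3
    have e3 : b * (k * (a * μ + a * ν) * (a' * μ')) / a = k * (b * μ + b * ν) * (a' * μ') := by
      rw [show b * (k * (a * μ + a * ν) * (a' * μ')) =
        a * (k * (b * μ + b * ν) * (a' * μ')) by ring, Nat.mul_div_cancel_left _ ha]
    have e4 : b * (k * (a * μ + a * ν) * (a' * ν')) / a = k * (b * μ + b * ν) * (a' * ν') := by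
      rw [show b * (k * (a * μ + a * ν) * (a' * ν')) =
        a * (k * (b * μ + b * ν) * (a' * ν')) by ring, Nat.mul_div_cancel_left _ ha]
    rw [e3, e4]
    exact this
  · have e6 : (aeval ![A ^ k + B, A]) (C c : P) = C c := by simp
    rw [br_smul, br_comp, br_ray, F4, A4, e6, ← C_neg, ← C_mul, ← C_mul]

/-- the polygon of `B + A ^ k` -/
theorem pol_shear {a' b' m' n' m2 n2 k : ℕ} (ha : 0 < a') (hk2 : b' < k * a')
    (hm' : 0 < m') (hn' : 0 < n') (hm2 : a' * m2 = b' * m') (hn2 : a' * n2 = b' * n')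
    {A B : P} (hA : Pol m' n' A) (hB : Pol m2 n2 B) : Pol (k * m') (k * n') (A ^ k + B) := by
  have haz : (0 : ℤ) < a' := by exact_mod_cast ha
  have hk2z : (b' : ℤ) < k * a' := by exact_mod_cast hk2
  have hm2z : (a' : ℤ) * m2 = b' * m' := by exact_mod_cast hm2
  have hn2z : (a' : ℤ) * n2 = b' * n' := by exact_mod_cast hn2
  have hmz : (0 : ℤ) < m' := by exact_mod_cast hm'
  have hnz : (0 : ℤ) < n' := by exact_mod_cast hn'
  have lm : (m2 : ℤ) < k * m' := by
    apply lt_of_mul_lt_mul_left _ haz.le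
    rw [hm2z]
    nlinarith
  have ln : (n2 : ℤ) < k * n' := by
    apply lt_of_mul_lt_mul_left _ haz.le
    rw [hn2z]
    nlinarith
  refine ⟨?_, ?_, ?_, ?_, ?_⟩
  · have x1 : Bd 0 1 (k * n') (A ^ k + B) := (hA.1.pow k).add hB.1 ln.le
    push_cast
    exact x1
  · have x1 : Bd 1 1 (k * (m' + n')) (A ^ k + B) := (hA.2.1.pow k).add hB.2.1 (by nlinarith)
    have e : ((k : ℤ) * (m' + n')) = ((k * m' : ℕ) : ℤ) + ((k * n' : ℕ) : ℤ) := by
      push_cast; ring
    rwa [e] at x1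
  · have x1 := ((hA.top1.pow k).add hB.top1.bd (by push_cast; nlinarith)).1
    have e : k * (m' + n') = k * m' + k * n' := by ring
    rw [e, mul_zero] at x1
    rw [x1]
    exact pow_ne_zero _ hA.2.2.1
  · have x1 := ((hA.top2.pow k).add hB.top2.bd (by push_cast; nlinarith)).1
    rw [x1, one_pow]
  · have x1 := ((hA.top3.pow k).add hB.top3.bd (by push_cast; nlinarith)).1
    rw [mul_zero] at x1
    rw [x1]
    exact pow_ne_zero _ hA.2.2.2.2

theorem inq_shear {a b m n a' b' m' n' k : ℕ} (h : InQ a b m n) (h' : InQ a' b' m' n') :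
    InQ a b ((m + k * n) * m') ((m + k * n) * n') := by
  obtain ⟨h1, h2, ⟨μ, rfl⟩, ⟨ν, rfl⟩, h5, h6, h7⟩ := h
  obtain ⟨k1, k2, -, -, -, -, -⟩ := h'
  have hpos : 0 < a * μ + k * (a * ν) := by positivity
  exact ⟨Nat.mul_pos hpos k1, Nat.mul_lt_mul_of_pos_left k2 hpos,
    ⟨(μ + k * ν) * m', by ring⟩, ⟨(μ + k * ν) * n', by ring⟩, h5, h6, h7⟩

theorem kp_shear (hR1 : S_REP1) (hR2 : S_REP2) {a b m n a' b' m' n' k : ℕ}
    (hk2 : b' < k * a') (h : InQ a b m n)
    (h' : InQ a' b' m' n') {F G A B : P} (hF : Kp a b m n F G) (hA : Kp a' b' m' n' A B) :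
    Kp a b ((m + k * n) * m') ((m + k * n) * n')
      (aeval ![A, A ^ k + B] F) (aeval ![A, A ^ k + B] G) := by
  obtain ⟨h1, h2, ⟨μ, rfl⟩, ⟨ν, rfl⟩, h5, h6, h7⟩ := h
  obtain ⟨k1, k2, ⟨μ', rfl⟩, ⟨ν', rfl⟩, k5, k6, k7⟩ := h'
  have ha : 0 < a := by omega
  have ha' : 0 < a' := by omega
  have hk : 1 < k := by
    by_contra hk
    have : k * a' ≤ 1 * a' := Nat.mul_le_mul_right _ (by omega)
    omega
  obtain ⟨F1, F2, F3, c, hc, F4⟩ := hF
  obtain ⟨A1, A2, A3, c', hc', A4⟩ := hA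
  have q1 : ∀ x : ℕ, b' * (a' * x) / a' = b' * x := by
    intro x
    rw [show b' * (a' * x) = a' * (b' * x) by ring, Nat.mul_div_cancel_left _ ha']
  have q2 : ∀ x : ℕ, b * (a * x) / a = b * x := by
    intro x
    rw [show b * (a * x) = a * (b * x) by ring, Nat.mul_div_cancel_left _ ha]
  rw [q1, q1] at A3
  rw [q2, q2] at F3
  have hn' : 0 < a' * ν' := by omega
  have hS : Pol (k * (a' * μ')) (k * (a' * ν')) (A ^ k + B) :=
    pol_shear ha' hk2 k1 hn' (m2 := b' * μ') (n2 := b' * ν') (by ring) (by ring) A1 A3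
  have e1 : a * μ * (a' * μ') + a * ν * (k * (a' * μ')) = (a * μ + k * (a * ν)) * (a' * μ') := by
    ring
  have e2 : a * μ * (a' * ν') + a * ν * (k * (a' * ν')) = (a * μ + k * (a * ν)) * (a' * ν') := by
    ring
  have e3 : b * μ * (a' * μ') + b * ν * (k * (a' * μ')) =
      b * ((a * μ + k * (a * ν)) * (a' * μ')) / a := by
    rw [show b * ((a * μ + k * (a * ν)) * (a' * μ')) =
      a * (b * μ * (a' * μ') + b * ν * (k * (a' * μ'))) by ring, Nat.mul_div_cancel_left _ ha]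
  have e4 : b * μ * (a' * ν') + b * ν * (k * (a' * ν')) =
      b * ((a * μ + k * (a * ν)) * (a' * ν')) / a := by
    rw [show b * ((a * μ + k * (a * ν)) * (a' * ν')) =
      a * (b * μ * (a' * ν') + b * ν * (k * (a' * ν'))) by ring, Nat.mul_div_cancel_left _ ha]
  have br_shear : br A (A ^ k + B) = br A B := by
    unfold br
    simp only [map_add, Derivation.leibniz_pow, smul_eq_mul, nsmul_eq_mul]
    ring
  refine ⟨?_, ?_, ?_, c * c', mul_ne_zero hc hc', ?_⟩
  · have := pol_comp one_pos hk k1 hn' (m2 := k * (a' * μ')) (n2 := k * (a' * ν')) (by ring)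
      (by ring) F1 A1 hS
    rwa [e1, e2] at this
  · obtain ⟨r1, r2, r3⟩ := hR1 _ _ k1 k2 A A1 A2
    have hb : Bd 0 1 (b' * ν' : ℕ) (sh B) := bd_sh A3.1
    obtain ⟨g1, g2⟩ := gb (a := a') (b := b') ha' k1 k2 (m1 := b' * μ') (n1 := b' * ν') (by ring)
      (by ring) r1 r2 r3 hb (br_sh A4)
    have hpos : 0 < a * μ + k * (a * ν) := by positivity
    have hMN : (a * μ + k * (a * ν)) * (a' * μ') < (a * μ + k * (a * ν)) * (a' * ν') :=
      Nat.mul_lt_mul_of_pos_left k2 hpos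
    have hk2z : (b' : ℤ) ≤ k * a' := by exact_mod_cast hk2.le
    have hμz : (0 : ℤ) ≤ μ' := by positivity
    have hνμ : (0 : ℤ) ≤ (ν' : ℤ) - μ' := by
      have : μ' < ν' := Nat.lt_of_mul_lt_mul_left k2
      have : (μ' : ℤ) < ν' := by exact_mod_cast this
      linarith
    have ha'z : (0 : ℤ) ≤ a' := by positivity
    apply hR2 _ _ hMN
    · rw [sh_comp, map_add, map_pow]
      have x1 : Bd 1 0 (k * ((a' * μ' : ℕ) : ℤ)) (sh A ^ k + sh B) := by
        refine (r1.pow k).add g1 ?_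
        push_cast
        nlinarith
      have := bd_comp (V := ((a' * μ' : ℕ) : ℤ)) (V2 := k * ((a' * μ' : ℕ) : ℤ)) r1 x1
        (by positivity) one_pos hk.le (by push_cast; ring) F1.1 F1.2.1
      rw [← e1]
      push_cast at this ⊢
      exact this
    · rw [sh_comp, map_add, map_pow]
      have x1 : Bd (-1) 1 (k * (((a' * ν' : ℕ) : ℤ) - ((a' * μ' : ℕ) : ℤ))) (sh A ^ k + sh B) := by
        refine (r2.pow k).add g2 ?_
        push_cast
        nlinarith
      have := bd_comp (V := ((a' * ν' : ℕ) : ℤ) - ((a' * μ' : ℕ) : ℤ))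
        (V2 := k * (((a' * ν' : ℕ) : ℤ) - ((a' * μ' : ℕ) : ℤ))) r2 x1
        (by push_cast; nlinarith) one_pos hk.le (by push_cast; ring) F1.1 F1.2.1
      rw [← e1, ← e2]
      have e5 : ((a * μ : ℕ) : ℤ) * (((a' * ν' : ℕ) : ℤ) - ((a' * μ' : ℕ) : ℤ)) +
          ((a * ν : ℕ) : ℤ) * (k * (((a' * ν' : ℕ) : ℤ) - ((a' * μ' : ℕ) : ℤ))) =
          ((a * μ * (a' * ν') + a * ν * (k * (a' * ν')) : ℕ) : ℤ) -
            ((a * μ * (a' * μ') + a * ν * (k * (a' * μ')) : ℕ) : ℤ) := by push_cast; ring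
      rw [← e5]
      exact this
  · have := pol_comp one_pos hk k1 hn' (m2 := k * (a' * μ')) (n2 := k * (a' * ν')) (by ring)
      (by ring) F3 A1 hS
    rwa [e3, e4] at this
  · have e6 : (aeval ![A, A ^ k + B]) (C c : P) = C c := by simp
    rw [br_comp, br_shear, F4, A4, e6, ← C_mul]

end Pool.Agent.Helper1.CP
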