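import Pool.Agent.Helper1.CP.Stm

/-!
# Module REP1 (helper49): the substitution `f(z - 1, w + 1 - z)` of a trapezoidal polynomial
-/

set_option autoImplicit false

namespace Pool.Agent.Helper1.CP.REP1

open MvPolynomial Pool.Agent.Helper1.CP

theorem deg1_u : degreeOf 1 (1 - X 0 : P) = 0 := by
  apply Nat.eq_zero_of_le_zero
  refine (degreeOf_sub_le 1 _ _).trans ?_
  rw [degreeOf_one, degreeOf_X_of_ne (by decide)]
  simp

theorem deg1_a : degreeOf 1 (X 0 - 1 : P) = 0 := by
  apply Nat.eq_zero_of_le_zero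
  refine (degreeOf_sub_le 1 _ _).trans ?_
  rw [degreeOf_one, degreeOf_X_of_ne (by decide)]
  simp

theorem deg1_b : degreeOf 1 (X 1 + 1 - X 0 : P) ≤ 1 := by
  have h : (X 1 + 1 - X 0 : P) = X 1 + (1 - X 0) := by ring
  rw [h]
  refine (degreeOf_add_le 1 _ _).trans ?_
  rw [deg1_u, degreeOf_X_self]
  simp

theorem tot_a : (X 0 - 1 : P).totalDegree ≤ 1 := by
  refine (totalDegree_sub _ _).trans ?_
  rw [totalDegree_X, totalDegree_one]
  simp

theorem tot_b : (X 1 + 1 - X 0 : P).totalDegree ≤ 1 := by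
  refine (totalDegree_sub _ _).trans ?_
  refine max_le ((totalDegree_add _ _).trans ?_) (by rw [totalDegree_X])
  rw [totalDegree_X, totalDegree_one]
  simp

theorem sh_monomial (d : Fin 2 →₀ ℕ) (c : ℂ) :
    sh (monomial d c) = C c * ((X 0 - 1) ^ d 0 * (X 1 + 1 - X 0) ^ d 1) := by
  rw [sh, aeval_monomial, algebraMap_eq, Finsupp.prod_fintype _ _ (fun i => pow_zero _), Fin.prod_univ_two]
  rfl

theorem sh_eq (f : P) : sh f = ∑ d ∈ f.support, C (coeff d f) * ((X 0 - 1) ^ d 0 * (X 1 + 1 - X 0) ^ d 1) := by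
  conv_lhs => rw [f.as_sum]
  rw [map_sum]
  exact Finset.sum_congr rfl fun d _ => sh_monomial d _

theorem deg_mon (a b : ℕ) : degreeOf 1 ((X 0 - 1 : P) ^ a * (X 1 + 1 - X 0) ^ b) ≤ b := by
  refine (degreeOf_mul_le _ _ _).trans ?_
  have h1 := degreeOf_pow_le 1 (X 0 - 1 : P) a
  have h2 := degreeOf_pow_le 1 (X 1 + 1 - X 0 : P) b
  rw [deg1_a, mul_zero] at h1
  have h3 : b * degreeOf 1 (X 1 + 1 - X 0 : P) ≤ b * 1 := Nat.mul_le_mul_left b deg1_b
  omega

theorem tot_mon (a b : ℕ) : ((X 0 - 1 : P) ^ a * (X 1 + 1 - X 0) ^ b).totalDegree ≤ a + b := by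
  refine (totalDegree_mul _ _).trans ?_
  have h1 := totalDegree_pow (X 0 - 1 : P) a
  have h2 := totalDegree_pow (X 1 + 1 - X 0 : P) b
  have h3 : a * (X 0 - 1 : P).totalDegree ≤ a * 1 := Nat.mul_le_mul_left a tot_a
  have h4 : b * (X 1 + 1 - X 0 : P).totalDegree ≤ b * 1 := Nat.mul_le_mul_left b tot_b
  omega

theorem deg_sh (f : P) (j : ℕ) (h : ∀ d ∈ f.support, d 1 ≤ j) : degreeOf 1 (sh f) ≤ j := by
  rw [sh_eq]
  refine (degreeOf_sum_le 1 _ _).trans (Finset.sup_le fun d hd => ?_)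
  refine (degreeOf_C_mul_le _ _ _).trans ((deg_mon _ _).trans (h d hd))

theorem tot_sh (f : P) (j : ℕ) (h : ∀ d ∈ f.support, d 0 + d 1 ≤ j) : (sh f).totalDegree ≤ j := by
  rw [sh_eq]
  refine (totalDegree_finsetSum _ _).trans (Finset.sup_le fun d hd => ?_)
  refine (totalDegree_mul _ _).trans ?_
  rw [totalDegree_C, zero_add]
  exact (tot_mon _ _).trans (h d hd)

theorem sh_a : sh (X 0 + 1) = X 0 := by
  simp [sh]

theorem sh_b : sh (X 0 + X 1) = X 1 := by
  simp only [sh, map_add, aeval_X]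
  simp

theorem Bd_sum {ι : Type*} (α β B : ℤ) (s : Finset ι) (g : ι → P) (h : ∀ i ∈ s, Bd α β B (g i)) :
    Bd α β B (∑ i ∈ s, g i) := by
  classical
  intro d hd
  have h1 := support_sum (s := s) (f := g) hd
  rw [Finset.mem_biUnion] at h1
  obtain ⟨i, hi, hd2⟩ := h1
  exact h i hi d hd2

theorem degA (m n : ℕ) (f : P) (h1 : Bd 1 1 (m + n) f)
    (h2 : ∀ i : ℕ, i ≤ n → ((X 0 + X 1 : P) ^ (n - i)) ∣ homogeneousComponent (m + n - i) f) :
    degreeOf 0 (sh f) ≤ m := by
  have hf : f.totalDegree ≤ m + n := by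
    refine Finset.sup_le fun d hd => ?_
    have h3 := h1 d hd
    rw [Finsupp.sum_fintype _ _ (by simp), Fin.sum_univ_two]
    omega
  conv_lhs => rw [← sum_homogeneousComponent f]
  rw [map_sum]
  refine (degreeOf_sum_le 0 _ _).trans (Finset.sup_le fun N hN => ?_)
  rw [Finset.mem_range] at hN
  have hh := homogeneousComponent_isHomogeneous N f
  rcases lt_or_ge N m with hNm | hNm
  · refine (degreeOf_le_totalDegree _ _).trans ((tot_sh _ N fun d hd => ?_).trans hNm.le)
    have h4 := hh (mem_support_iff.1 hd)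
    rw [Finsupp.weight_apply, Finsupp.sum_fintype _ _ (by simp), Fin.sum_univ_two] at h4
    simp at h4
    omega
  · obtain ⟨s, hs⟩ := h2 (m + n - N) (by omega)
    have e1 : m + n - (m + n - N) = N := by omega
    rw [e1] at hs
    rw [hs, map_mul, map_pow, sh_b]
    by_cases hs0 : s = 0
    · rw [hs0, map_zero, mul_zero, degreeOf_zero]
      omega
    have hx : (X 0 + X 1 : P) ≠ 0 := by
      intro h
      have h5 := congrArg sh h
      rw [sh_b, map_zero] at h5
      exact X_ne_zero _ h5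
    have ht : s.totalDegree + (n - (m + n - N)) ≤ N := by
      have h6 : (homogeneousComponent N f).totalDegree ≤ N := hh.totalDegree_le
      rw [hs, totalDegree_mul_of_isDomain (pow_ne_zero _ hx) hs0] at h6
      have h7 : ((X 0 + X 1 : P) ^ (n - (m + n - N))).totalDegree = n - (m + n - N) := by
        have h8 : (X 0 + X 1 : P).IsHomogeneous 1 := (isHomogeneous_X _ _).add (isHomogeneous_X _ _)
        have h9 := (h8.pow (n - (m + n - N))).totalDegree (pow_ne_zero _ hx)
        rw [h9, one_mul]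
      omega
    refine (degreeOf_mul_le _ _ _).trans ?_
    have h10 := degreeOf_pow_le 0 (X 1 : P) (n - (m + n - N))
    rw [degreeOf_X_of_ne (by decide), mul_zero] at h10
    have h11 : degreeOf 0 (sh s) ≤ s.totalDegree := by
      refine (degreeOf_le_totalDegree _ _).trans (tot_sh _ _ fun d hd => ?_)
      have h12 := le_totalDegree hd
      rw [Finsupp.sum_fintype _ _ (by simp), Fin.sum_univ_two] at h12
      exact h12
    omega

theorem whc_sum (n : ℕ) (f : P) (h : Bd 0 1 n f) :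
    ∑ j ∈ Finset.range (n + 1), weightedHomogeneousComponent (![(0:ℕ), 1] : Fin 2 → ℕ) j f = f := by
  ext d
  rw [coeff_sum]
  simp only [coeff_weightedHomogeneousComponent]
  have hw : Finsupp.weight (![(0:ℕ), 1] : Fin 2 → ℕ) d = d 1 := by
    rw [Finsupp.weight_apply, Finsupp.sum_fintype _ _ (by simp), Fin.sum_univ_two]
    simp
  rw [hw]
  by_cases hd : d ∈ f.support
  · have h1 := h d hd
    rw [Finset.sum_ite_eq, if_pos]
    rw [Finset.mem_range]
    omega
  · rw [notMem_support_iff] at hd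
    rw [hd]
    simp

theorem bdB (m n : ℕ) (hmn : m < n) (f : P) (h0 : Bd 0 1 n f)
    (h2 : ∀ i : ℕ, i ≤ m → ((X 0 + 1 : P) ^ (m - i)) ∣
      weightedHomogeneousComponent (![(0:ℕ), 1] : Fin 2 → ℕ) (n - i) f) :
    Bd (-1) 1 (n - m) (sh f) := by
  rw [← whc_sum n f h0, map_sum]
  refine Bd_sum _ _ _ _ _ fun j hj => ?_
  rw [Finset.mem_range] at hj
  have hdeg : degreeOf 1 (sh (weightedHomogeneousComponent (![(0:ℕ), 1] : Fin 2 → ℕ) j f)) ≤ j := by
    refine deg_sh _ j fun d hd => ?_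
    have h4 := weightedHomogeneousComponent_isWeightedHomogeneous (w := (![(0:ℕ), 1] : Fin 2 → ℕ)) j f
      (mem_support_iff.1 hd)
    rw [Finsupp.weight_apply, Finsupp.sum_fintype _ _ (by simp), Fin.sum_univ_two] at h4
    simp at h4
    omega
  intro d hd
  have h5 := (degreeOf_le_iff.1 hdeg) d hd
  by_cases hjm : j + m < n
  · omega
  obtain ⟨r, hr⟩ := h2 (n - j) (by omega)
  have e1 : n - (n - j) = j := by omega
  rw [e1] at hr
  rw [hr, map_mul, map_pow, sh_a, mem_support_iff, X_pow_eq_monomial, coeff_monomial_mul'] at hd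
  have h6 : Finsupp.single 0 (m - (n - j)) ≤ d := by
    by_contra hcon
    rw [if_neg hcon] at hd
    exact hd rfl
  have h7 := h6 0
  rw [Finsupp.single_eq_same] at h7
  omega

theorem deg_pow_sub (n : ℕ) (hn : 0 < n) :
    degreeOf 1 ((X 1 + 1 - X 0 : P) ^ n - X 1 ^ n) < n := by
  have h := (Commute.all (X 1 + 1 - X 0 : P) (X 1)).mul_geom_sum₂ n
  rw [← h]
  have e : (X 1 + 1 - X 0 - X 1 : P) = 1 - X 0 := by ring
  rw [e]
  refine lt_of_le_of_lt (degreeOf_mul_le _ _ _) ?_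
  rw [deg1_u, zero_add]
  refine lt_of_le_of_lt (degreeOf_sum_le 1 _ _) ?_
  rw [Finset.sup_lt_iff (by simpa using hn)]
  intro i hi
  rw [Finset.mem_range] at hi
  refine lt_of_le_of_lt (degreeOf_mul_le _ _ _) ?_
  have h1 := degreeOf_pow_le 1 (X 1 + 1 - X 0 : P) i
  have h2 := degreeOf_pow_le 1 (X 1 : P) (n - 1 - i)
  have h3 : i * degreeOf 1 (X 1 + 1 - X 0 : P) ≤ i * 1 := Nat.mul_le_mul_left i deg1_b
  rw [degreeOf_X_self] at h2
  omega

theorem tot_pow_sub (m : ℕ) (hm : 0 < m) :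
    ((X 0 - 1 : P) ^ m - X 0 ^ m).totalDegree < m := by
  have h := (Commute.all (X 0 - 1 : P) (X 0)).mul_geom_sum₂ m
  rw [← h]
  have e : (X 0 - 1 - X 0 : P) = C (-1) := by
    rw [map_neg, map_one]
    ring
  rw [e]
  refine lt_of_le_of_lt (totalDegree_mul _ _) ?_
  rw [totalDegree_C, zero_add]
  refine lt_of_le_of_lt (totalDegree_finsetSum _ _) ?_
  rw [Finset.sup_lt_iff (by simpa using hm)]
  intro i hi
  rw [Finset.mem_range] at hi
  refine lt_of_le_of_lt (totalDegree_mul _ _) ?_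
  have h1 := totalDegree_pow (X 0 - 1 : P) i
  have h2 := totalDegree_pow (X 0 : P) (m - 1 - i)
  have h3 : i * (X 0 - 1 : P).totalDegree ≤ i * 1 := Nat.mul_le_mul_left i tot_a
  rw [totalDegree_X] at h2
  omega

theorem ex0 (m n : ℕ) : ex m n 0 = m := by
  simp [ex]

theorem ex1 (m n : ℕ) : ex m n 1 = n := by
  simp [ex]

theorem coeff_deg {m n : ℕ} {g : P} (h : degreeOf 1 g < n) : coeff (ex m n) g = 0 := by
  by_contra hc
  have h1 := (degreeOf_le_iff.1 (le_refl (degreeOf 1 g))) _ (mem_support_iff.2 hc)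
  rw [ex1] at h1
  omega

theorem coeff_tot {m n : ℕ} {g : P} (h : g.totalDegree < m + n) : coeff (ex m n) g = 0 := by
  by_contra hc
  have h1 := le_totalDegree (mem_support_iff.2 hc)
  rw [Finsupp.sum_fintype _ _ (by simp), Fin.sum_univ_two, ex0, ex1] at h1
  omega

theorem coeff_top (m n : ℕ) (hm : 0 < m) (hn : 0 < n) :
    coeff (ex m n) ((X 0 - 1 : P) ^ m * (X 1 + 1 - X 0) ^ n) = 1 := by
  have e : (X 0 - 1 : P) ^ m * (X 1 + 1 - X 0) ^ n =
      (X 0 - 1 : P) ^ m * ((X 1 + 1 - X 0) ^ n - X 1 ^ n) +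
        (((X 0 - 1 : P) ^ m - X 0 ^ m) * X 1 ^ n + X 0 ^ m * X 1 ^ n) := by ring
  rw [e, coeff_add, coeff_add, coeff_deg, coeff_tot, zero_add, zero_add]
  · rw [X_pow_eq_monomial, X_pow_eq_monomial, monomial_mul, one_mul]
    rw [coeff_monomial]
    exact if_pos rfl
  · refine lt_of_le_of_lt (totalDegree_mul _ _) ?_
    have h1 := tot_pow_sub m hm
    have h2 := totalDegree_pow (X 1 : P) n
    rw [totalDegree_X] at h2
    omega
  · refine lt_of_le_of_lt (degreeOf_mul_le _ _ _) ?_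
    have h1 := deg_pow_sub n hn
    have h2 := degreeOf_pow_le 1 (X 0 - 1 : P) m
    rw [deg1_a, mul_zero] at h2
    omega

theorem coeffC (m n : ℕ) (hm : 0 < m) (hn : 0 < n) (f : P) (h0 : Bd 0 1 n f) (h1 : Bd 1 1 (m + n) f) :
    coeff (ex m n) (sh f) = coeff (ex m n) f := by
  rw [sh_eq, coeff_sum]
  have key : ∀ d ∈ f.support, coeff (ex m n) (C (coeff d f) * ((X 0 - 1) ^ d 0 * (X 1 + 1 - X 0) ^ d 1)) =
      if d = ex m n then coeff (ex m n) f else 0 := by
    intro d hd
    have a0 := h0 d hd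
    have a1 := h1 d hd
    rw [coeff_C_mul]
    by_cases hn' : d 1 < n
    · rw [coeff_deg (lt_of_le_of_lt (deg_mon _ _) hn'), mul_zero, if_neg]
      rintro rfl
      rw [ex1] at hn'
      omega
    · have e1 : d 1 = n := by omega
      by_cases hm' : d 0 < m
      · rw [coeff_tot (lt_of_le_of_lt (tot_mon _ _) (by omega)), mul_zero, if_neg]
        rintro rfl
        rw [ex0] at hm'
        omega
      · have e0 : d 0 = m := by omega
        have e2 : d = ex m n := by
          ext i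
          fin_cases i
          · exact e0.trans (ex0 m n).symm
          · exact e1.trans (ex1 m n).symm
        rw [if_pos e2, e0, e1, coeff_top m n hm hn, mul_one, e2]
  rw [Finset.sum_congr rfl key, Finset.sum_ite_eq']
  by_cases hd : ex m n ∈ f.support
  · rw [if_pos hd]
  · rw [if_neg hd]
    exact (notMem_support_iff.1 hd).symm

theorem main : S_REP1 := by
  rintro m n hm hmn f ⟨p1, p2, -, p4, -⟩ ⟨d1, d2⟩
  refine ⟨?_, bdB m n hmn f p1 d1, ?_⟩
  · intro d hd
    have h := (degreeOf_le_iff.1 (degA m n f p2 d2)) d hd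
    omega
  · rw [coeffC m n hm (by omega) f p1 p2, p4]

end Pool.Agent.Helper1.CP.REP1
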