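import Pool.Agent.Helper1.CP.Stm

/-!
# REP2: the divisibility conditions from the bounds on the support (helper95)
-/

set_option autoImplicit false

namespace Pool.Agent.Helper1.CP.REP2

open MvPolynomial

/-- components of a product with a homogeneous factor -/
theorem wcomp_mul {w : Fin 2 → ℕ} {u : P} {a : ℕ} (hu : IsWeightedHomogeneous w u a) (v : P)
    (k : ℕ) : weightedHomogeneousComponent w (a + k) (u * v) =
      u * weightedHomogeneousComponent w k v := by
  classical
  ext d
  rw [coeff_weightedHomogeneousComponent, coeff_mul, coeff_mul]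
  have key : ∀ z ∈ Finset.HasAntidiagonal.antidiagonal d, coeff z.1 u ≠ 0 →
      (Finsupp.weight w d = a + k ↔ Finsupp.weight w z.2 = k) := by
    intro z hz hzu
    have h1 := hu hzu
    have h2 := Finset.HasAntidiagonal.mem_antidiagonal.1 hz
    rw [← h2, map_add, h1]
    omega
  split_ifs with h
  · refine Finset.sum_congr rfl fun z hz => ?_
    rw [coeff_weightedHomogeneousComponent]
    by_cases hzu : coeff z.1 u = 0
    · rw [hzu, zero_mul, zero_mul]
    · rw [if_pos ((key z hz hzu).1 h)]
  · symm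
    refine Finset.sum_eq_zero fun z hz => ?_
    rw [coeff_weightedHomogeneousComponent]
    by_cases hzu : coeff z.1 u = 0
    · rw [hzu, zero_mul]
    · rw [if_neg (fun h' => h ((key z hz hzu).2 h')), mul_zero]

theorem wcomp_mul_lt {w : Fin 2 → ℕ} {u : P} {a : ℕ} (hu : IsWeightedHomogeneous w u a) (v : P)
    {k : ℕ} (hk : k < a) : weightedHomogeneousComponent w k (u * v) = 0 := by
  classical
  ext d
  rw [coeff_weightedHomogeneousComponent, coeff_mul, coeff_zero]
  split_ifs with h
  · refine Finset.sum_eq_zero fun z hz => ?_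
    by_cases hzu : coeff z.1 u = 0
    · rw [hzu, zero_mul]
    · exfalso
      have h1 := hu hzu
      have h2 := Finset.HasAntidiagonal.mem_antidiagonal.1 hz
      rw [← h2, map_add, h1] at h
      omega
  · rfl

theorem inv_sh (f : P) : aeval ![(X 0 + 1 : P), X 0 + X 1] (sh f) = f := by
  have h : (aeval ![(X 0 + 1 : P), X 0 + X 1] : P →ₐ[ℂ] P).comp sh = AlgHom.id ℂ P := by
    apply MvPolynomial.algHom_ext
    intro i
    fin_cases i
    · simp [sh]
    · simp [sh]
  exact congrArg (fun φ : P →ₐ[ℂ] P => φ f) h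

theorem expand (f : P) : f = ∑ d ∈ (sh f).support,
    C (coeff d (sh f)) * ((X 0 + 1) ^ d 0 * (X 0 + X 1) ^ d 1) := by
  conv_lhs => rw [← inv_sh f, (sh f).as_sum]
  rw [map_sum]
  refine Finset.sum_congr rfl fun d _ => ?_
  rw [aeval_monomial, Finsupp.prod_fintype _ _ (fun i => pow_zero _), Fin.prod_univ_two]
  rfl

theorem hom_add : IsHomogeneous (X 0 + X 1 : P) 1 := (isHomogeneous_X ℂ 0).add (isHomogeneous_X ℂ 1)

theorem hom_pow (q : ℕ) : IsHomogeneous ((X 0 + X 1 : P) ^ q) q := by
  have := hom_add.pow q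
  rwa [one_mul] at this

/-- weight of a homogeneous polynomial of degree `q` is at most `q` -/
theorem wcomp_zero {q k : ℕ} (hk : q < k) :
    weightedHomogeneousComponent (![(0:ℕ), 1] : Fin 2 → ℕ) k ((X 0 + X 1 : P) ^ q) = 0 := by
  classical
  ext d
  rw [coeff_weightedHomogeneousComponent, coeff_zero]
  split_ifs with h
  · by_contra hne
    have h1 := hom_pow q hne
    have h2 : Finsupp.weight (1 : Fin 2 → ℕ) d = d 0 + d 1 := by
      rw [Finsupp.weight_apply, Finsupp.sum_fintype _ _ (fun i => by simp), Fin.sum_univ_two]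
      simp
    have h3 : Finsupp.weight (![(0:ℕ), 1] : Fin 2 → ℕ) d = d 1 := by
      rw [Finsupp.weight_apply, Finsupp.sum_fintype _ _ (fun i => by simp), Fin.sum_univ_two]
      simp
    rw [h2] at h1
    rw [h3] at h
    omega
  · rfl

theorem whom_one (p : ℕ) : IsWeightedHomogeneous (![(0:ℕ), 1] : Fin 2 → ℕ) ((X 0 + 1 : P) ^ p) 0 := by
  have h1 : IsWeightedHomogeneous (![(0:ℕ), 1] : Fin 2 → ℕ) (X 0 + 1 : P) 0 := by
    have h2 := isWeightedHomogeneous_X ℂ (![(0:ℕ), 1] : Fin 2 → ℕ) 0
    have h3 := isWeightedHomogeneous_one ℂ (![(0:ℕ), 1] : Fin 2 → ℕ)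
    exact h2.add h3
  have h4 := h1.pow p
  rwa [smul_zero] at h4

theorem main : S_REP2 := by
  classical
  intro m n hmn f h1 h2
  constructor
  · intro i hi
    conv_rhs => rw [expand f]
    rw [map_sum]
    refine Finset.dvd_sum fun d hd => ?_
    have hp : d 0 ≤ m := by
      have := h1 d hd
      omega
    have hq := h2 d hd
    rw [← smul_eq_C_mul, map_smul, smul_eq_C_mul]
    apply Dvd.dvd.mul_left
    have h3 := wcomp_mul (whom_one (d 0)) ((X 0 + X 1 : P) ^ d 1) (n - i)
    rw [zero_add] at h3
    rw [h3]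
    by_cases hc : m - i ≤ d 0
    · exact (pow_dvd_pow _ hc).mul_right _
    · have h4 : d 1 < n - i := by omega
      rw [wcomp_zero h4, mul_zero]
      exact dvd_zero _
  · intro i hi
    conv_rhs => rw [expand f]
    rw [map_sum]
    refine Finset.dvd_sum fun d hd => ?_
    have hp : d 0 ≤ m := by
      have := h1 d hd
      omega
    have hq := h2 d hd
    rw [← smul_eq_C_mul, map_smul, smul_eq_C_mul]
    apply Dvd.dvd.mul_left
    rw [mul_comm ((X 0 + 1 : P) ^ d 0)]
    rcases lt_or_ge (m + n - i) (d 1) with hlt | hge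
    · have h3 : homogeneousComponent (m + n - i) ((X 0 + X 1 : P) ^ d 1 * (X 0 + 1) ^ d 0) = 0 :=
        wcomp_mul_lt (hom_pow (d 1)) _ hlt
      rw [h3]
      exact dvd_zero _
    · obtain ⟨k, hk⟩ := Nat.exists_eq_add_of_le hge
      have h3 : homogeneousComponent (m + n - i) ((X 0 + X 1 : P) ^ d 1 * (X 0 + 1) ^ d 0) =
          (X 0 + X 1 : P) ^ d 1 * homogeneousComponent k ((X 0 + 1 : P) ^ d 0) := by
        rw [hk]
        exact wcomp_mul (hom_pow (d 1)) _ k
      rw [h3]
      by_cases hc : n - i ≤ d 1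
      · exact (pow_dvd_pow _ hc).mul_right _
      · have h4 : homogeneousComponent k ((X 0 + 1 : P) ^ d 0) = 0 := by
          apply homogeneousComponent_eq_zero
          have h5 : totalDegree ((X 0 + 1 : P) ^ d 0) ≤ d 0 := by
            refine (totalDegree_pow _ _).trans ?_
            have h6 : totalDegree (X 0 + 1 : P) ≤ 1 := by
              refine (totalDegree_add _ _).trans ?_
              rw [totalDegree_X, totalDegree_one]
              simp
            calc d 0 * totalDegree (X 0 + 1 : P) ≤ d 0 * 1 := Nat.mul_le_mul_left _ h6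
              _ = d 0 := mul_one _
          omega
        rw [h4, mul_zero]
        exact dvd_zero _

end Pool.Agent.Helper1.CP.REP2
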