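import Mathlib

/-! Composition of trapezoidal pairs: statements of the modules.
`F(F', G')`, `G(F', G')` for two trapezoidal Keller pairs is a trapezoidal Keller pair. -/

set_option autoImplicit false

namespace Pool.Agent.Helper1.CP

open MvPolynomial

abbrev P := MvPolynomial (Fin 2) ℂ

/-- the exponent `(p, q)` -/
noncomputable def ex (p q : ℕ) : Fin 2 →₀ ℕ := Finsupp.single 0 p + Finsupp.single 1 q

/-- the functional `α p + β q` is at most `B` on the support -/
def Bd (α β B : ℤ) (f : P) : Prop := ∀ d ∈ f.support, α * d 0 + β * d 1 ≤ B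

/-- the hull of the support and the origin, as in the problem -/
def hull (f : P) : Set (ℝ × ℝ) :=
  convexHull ℝ (insert ((0:ℝ), (0:ℝ))
    ((fun d : Fin 2 →₀ ℕ => ((d 0 : ℝ), (d 1 : ℝ))) '' (↑f.support : Set (Fin 2 →₀ ℕ))))

/-- the trapezoid -/
def trap (m n : ℕ) : Set (ℝ × ℝ) :=
  {p | 0 ≤ p.2 ∧ p.2 ≤ (n : ℝ) ∧ 0 ≤ p.1 ∧ p.1 ≤ (m : ℝ) + (n : ℝ) - p.2}

/-- the support lies in the trapezoid, its three vertices `≠ 0` are in the support, and the
coefficient of `x^m y^n` is one -/
def Pol (m n : ℕ) (f : P) : Prop :=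
  Bd 0 1 n f ∧ Bd 1 1 (m + n) f ∧ coeff (ex (m + n) 0) f ≠ 0 ∧ coeff (ex m n) f = 1 ∧
    coeff (ex 0 n) f ≠ 0

/-- conditions 2 and 3 -/
def Dv (m n : ℕ) (f : P) : Prop :=
  (∀ i : ℕ, i ≤ m → ((X 0 + 1 : P) ^ (m - i)) ∣
      weightedHomogeneousComponent (![(0:ℕ), 1] : Fin 2 → ℕ) (n - i) f) ∧
    ∀ i : ℕ, i ≤ n → ((X 0 + X 1 : P) ^ (n - i)) ∣ homogeneousComponent (m + n - i) f

/-- the substitution `f(z - 1, w + 1 - z)` -/
noncomputable def sh : P →ₐ[ℂ] P := aeval ![X 0 - 1, X 1 + 1 - X 0]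

/-- HUL. (→): a functional that is `≤ B` on the generating set of the hull is `≤ B` on the hull
(`convexHull_min` with the convex half space); `supp ⊆ trap` gives the two bounds; a vertex of `trap`
which is not in the support contradicts the equality, by the functionals `2p+q`, `p+2q`, `q-p`, which
take integer values `≤` (value at the vertex) `- 1` at the other points; if the coefficient of
`x^m y^n` is not `0, 1` then `f` and `f - x^m y^n` have the same support.
(←): the four vertices span `trap` (explicit convex combination: `(s,t) ∈ trap`); the points of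
`supp (f - x^m y^n)` satisfy `p + 2q ≤ m + 2n - 1`. -/
def S_HUL : Prop := ∀ m n : ℕ, 0 < m → 0 < n → ∀ f : P,
  (hull f = trap m n ∧ hull (f - X 0 ^ m * X 1 ^ n) ⊂ hull f) ↔ Pol m n f

/-- REP1. `f` is the sum of its components of `y`-degree `n - i` (`i ≤ n`, by `Bd 0 1 n`): for
`i ≤ m` the component is `(x+1)^(m-i) r y^(n-i)`-like: `sh` maps it to `z^(m-i) * ...` times
`(w+1-z)^(n-i)`-terms; every monomial `z^p w^q` of `sh` of a polynomial of `y`-degree `≤ n-i` has
`q ≤ n - i`, and `z^(m-i)` divides it, so `q - p ≤ n - m` (for `i > m` use only `q ≤ n - i`).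
For `p ≤ m`: the homogeneous component of degree `m+n-i` is `(x+y)^(n-i) s`, `s` homogeneous of
degree `m` (or `0`), and `sh (x+y) = w`, and `sh s` has `z`-degree `≤ deg s ≤ m`
(for `i > n` the component has degree `< m`). The coefficient of `z^m w^n`: only the component of
`y`-degree `n` contributes, it is `y^n h(x)` with `(x+1)^m ∣ h`, `deg h ≤ m` and leading
coefficient `coeff (ex m n) f = 1`; or: `coeff (ex m n) (sh f)` is the coefficient in the part of `f`
of total degree `m+n` and `y`-degree `n`. -/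
def S_REP1 : Prop := ∀ m n : ℕ, 0 < m → m < n → ∀ f : P, Pol m n f → Dv m n f →
  Bd 1 0 m (sh f) ∧ Bd (-1) 1 (n - m) (sh f) ∧ coeff (ex m n) (sh f) = 1

/-- REP2. `f = ∑ c_pq (x+1)^p (x+y)^q` over the support of `sh f` (`f = aeval ![X 0 + 1, X 0 + X 1] (sh f)`),
with `p ≤ m`, `q ≤ p + n - m`. The weight (0,1) component of degree `n - i` of `(x+1)^p (x+y)^q` is
`(x+1)^p * (component of (x+y)^q)`: divisible by `(x+1)^(m-i)` if `p ≥ m - i`, and `0` if
`p < m - i` as then `q < n - i`. The homogeneous component of degree `m+n-i` is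
`(x+y)^q * (component of degree m+n-i-q of (x+1)^p)`, and `0` if `q < n - i`. -/
def S_REP2 : Prop := ∀ m n : ℕ, m < n → ∀ f : P, Bd 1 0 m (sh f) → Bd (-1) 1 (n - m) (sh f) →
  Dv m n f

end Pool.Agent.Helper1.CP
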